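import Mathlib

/-! Combinators for `Computable` in a form convenient for repeated `apply`. -/

namespace R577.PKL

section
variable {α β γ σ : Type} [Primcodable α] [Primcodable β] [Primcodable γ] [Primcodable σ]

theorem c_fst {f : α → β × γ} (hf : Computable f) : Computable fun a => (f a).1 :=
  Computable.fst.comp hf

theorem c_snd {f : α → β × γ} (hf : Computable f) : Computable fun a => (f a).2 :=
  Computable.snd.comp hf

theorem c_pair {f : α → β} {g : α → γ} (hf : Computable f) (hg : Computable g) :
    Computable fun a => (f a, g a) := hf.pair hg

theorem c_add {f g : α → ℕ} (hf : Computable f) (hg : Computable g) :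
    Computable fun a => f a + g a := Primrec.nat_add.to_comp.comp hf hg

theorem c_sub {f g : α → ℕ} (hf : Computable f) (hg : Computable g) :
    Computable fun a => f a - g a := Primrec.nat_sub.to_comp.comp hf hg

theorem c_mul {f g : α → ℕ} (hf : Computable f) (hg : Computable g) :
    Computable fun a => f a * g a := Primrec.nat_mul.to_comp.comp hf hg

theorem c_div {f g : α → ℕ} (hf : Computable f) (hg : Computable g) :
    Computable fun a => f a / g a := Primrec.nat_div.to_comp.comp hf hg

theorem c_mod {f g : α → ℕ} (hf : Computable f) (hg : Computable g) :
    Computable fun a => f a % g a := Primrec.nat_mod.to_comp.comp hf hg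

theorem c_min {f g : α → ℕ} (hf : Computable f) (hg : Computable g) :
    Computable fun a => min (f a) (g a) := Primrec.nat_min.to_comp.comp hf hg

theorem c_np {f g : α → ℕ} (hf : Computable f) (hg : Computable g) :
    Computable fun a => Nat.pair (f a) (g a) := Primrec₂.natPair.to_comp.comp hf hg

theorem c_unpair {f : α → ℕ} (hf : Computable f) :
    Computable fun a => Nat.unpair (f a) := Computable.unpair.comp hf

theorem c_le {f g : α → ℕ} (hf : Computable f) (hg : Computable g) :
    Computable fun a => decide (f a ≤ g a) := Primrec.nat_le.decide.to_comp.comp hf hg

theorem c_lt {f g : α → ℕ} (hf : Computable f) (hg : Computable g) :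
    Computable fun a => decide (f a < g a) := Primrec.nat_lt.decide.to_comp.comp hf hg

theorem c_beq {f g : α → ℕ} (hf : Computable f) (hg : Computable g) :
    Computable fun a => (f a == g a) := Primrec.beq.to_comp.comp hf hg

theorem c_not {f : α → Bool} (hf : Computable f) : Computable fun a => !(f a) :=
  Primrec.not.to_comp.comp hf

theorem c_and {f g : α → Bool} (hf : Computable f) (hg : Computable g) :
    Computable fun a => f a && g a := Primrec.and.to_comp.comp hf hg

theorem c_or {f g : α → Bool} (hf : Computable f) (hg : Computable g) :
    Computable fun a => f a || g a := Primrec.or.to_comp.comp hf hg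

theorem c_cond {c : α → Bool} {f g : α → σ} (hc : Computable c) (hf : Computable f)
    (hg : Computable g) : Computable fun a => bif c a then f a else g a :=
  Computable.cond hc hf hg

theorem c_len {f : α → List β} (hf : Computable f) : Computable fun a => (f a).length :=
  Computable.list_length.comp hf

theorem c_getD {f : α → List ℕ} {g : α → ℕ} {d : ℕ} (hf : Computable f) (hg : Computable g) :
    Computable fun a => (f a).getD (g a) d := (Primrec.list_getD d).to_comp.comp hf hg

theorem c_take {f : α → List ℕ} {g : α → ℕ} (hf : Computable f) (hg : Computable g) :
    Computable fun a => (f a).take (g a) := Primrec.list_take.to_comp.comp hg hf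

theorem c_app {f g : α → List β} (hf : Computable f) (hg : Computable g) :
    Computable fun a => f a ++ g a := Computable.list_append.comp hf hg

theorem c_sing {f : α → β} (hf : Computable f) :
    Computable fun a => [f a] := Computable.list_cons.comp hf (Computable.const [])

theorem c_enc {f : α → β} (hf : Computable f) :
    Computable fun a => Encodable.encode (f a) := Computable.encode.comp hf

/-- decoding with a default value -/
def dec (d : β) (n : ℕ) : β := ((Encodable.decode n : Option β)).getD d

theorem dec_encode (d b : β) : dec d (Encodable.encode b) = b := by
  simp [dec]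

theorem c_dec {f : α → ℕ} {d : β} (hf : Computable f) :
    Computable fun a => dec d (f a) :=
  Computable.option_getD (Computable.decode.comp hf) (Computable.const d)

theorem c_rec {n : α → ℕ} {f : α → σ} {h : α → ℕ → σ → σ} (hn : Computable n) (hf : Computable f)
    (hh : Computable fun x : α × (ℕ × σ) => h x.1 x.2.1 x.2.2) :
    Computable fun a => Nat.rec (motive := fun _ => σ) (f a) (fun k s => h a k s) (n a) :=
  Computable.nat_rec (h := fun a x => h a x.1 x.2) hn hf hh

theorem c_iter {n : α → ℕ} {f : α → σ} {h : α → σ → σ} (hn : Computable n) (hf : Computable f)
    (hh : Computable fun x : α × σ => h x.1 x.2) :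
    Computable fun a => (h a)^[n a] (f a) := by
  refine (c_rec (n := n) (f := f) (h := fun a _ s => h a s) hn hf
    (hh.comp (c_pair (c_fst Computable.id) (c_snd (c_snd Computable.id))))).of_eq fun a => ?_
  generalize n a = m
  induction m with
  | zero => rfl
  | succ m ih => simp only [Function.iterate_succ', Function.comp]; rw [← ih]

theorem c_mapr {n : α → ℕ} {f : α → ℕ → β} (hn : Computable n)
    (hf : Computable fun x : α × ℕ => f x.1 x.2) :
    Computable fun a => (List.range (n a)).map (fun j => f a j) := by
  refine (c_rec (n := n) (f := fun _ => ([] : List β)) (h := fun a k s => s ++ [f a k]) hn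
    (Computable.const _) ?_).of_eq fun a => ?_
  · exact Computable.list_concat.comp (c_snd (c_snd Computable.id))
      (hf.comp (c_pair (c_fst Computable.id) (c_fst (c_snd Computable.id))))
  · generalize n a = m
    induction m with
    | zero => rfl
    | succ m ih => simp only [List.range_succ, List.map_append, List.map_cons, List.map_nil]; rw [← ih]

theorem c_all {n : α → ℕ} {f : α → ℕ → Bool} (hn : Computable n)
    (hf : Computable fun x : α × ℕ => f x.1 x.2) :
    Computable fun a => (List.range (n a)).all (fun j => f a j) := by
  refine (c_rec (n := n) (f := fun _ => true) (h := fun a k s => s && f a k) hn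
    (Computable.const _) ?_).of_eq fun a => ?_
  · exact c_and (c_snd (c_snd Computable.id))
      (hf.comp (c_pair (c_fst Computable.id) (c_fst (c_snd Computable.id))))
  · generalize n a = m
    induction m with
    | zero => rfl
    | succ m ih => simp only [List.range_succ, List.all_append, List.all_cons, List.all_nil,
        Bool.and_true]; rw [← ih]

theorem c_any {n : α → ℕ} {f : α → ℕ → Bool} (hn : Computable n)
    (hf : Computable fun x : α × ℕ => f x.1 x.2) :
    Computable fun a => (List.range (n a)).any (fun j => f a j) := by
  refine (c_rec (n := n) (f := fun _ => false) (h := fun a k s => s || f a k) hn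
    (Computable.const _) ?_).of_eq fun a => ?_
  · exact c_or (c_snd (c_snd Computable.id))
      (hf.comp (c_pair (c_fst Computable.id) (c_fst (c_snd Computable.id))))
  · generalize n a = m
    induction m with
    | zero => rfl
    | succ m ih => simp only [List.range_succ, List.any_append, List.any_cons, List.any_nil,
        Bool.or_false]; rw [← ih]

end

theorem c_id {α : Type} [Primcodable α] : Computable (fun a : α => a) := Computable.id

theorem c_const {α σ : Type} [Primcodable α] [Primcodable σ] (s : σ) :
    Computable (fun _ : α => s) := Computable.const s

end R577.PKL
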