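import Pool.Agent.R577.PK.Word

/-! The word functions of the reduction. -/

namespace R577.PKL

section
variable (φ₁ ψ₁ φ₂ ψ₂ : List ℕ → List ℕ)

/-- approximations of the sequence whose limit is needed -/
def th (u s : List ℕ) : List ℕ := φ₁ (ψ₂ (jw u s))

/-- the entries with indices `(k,i)`, `(m,i)` are defined and different, `m < k` -/
def dd (u s : List ℕ) (k i m : ℕ) : Bool :=
  decide (m < k) && (decide (Nat.pair k i < (th φ₁ ψ₂ u s).length) &&
    (decide (Nat.pair m i < (th φ₁ ψ₂ u s).length) &&
      !((th φ₁ ψ₂ u s).getD (Nat.pair k i) 0 == (th φ₁ ψ₂ u s).getD (Nat.pair m i) 0)))

/-- `s` is an admissible extension of the condition `c` -/
def valid (c s : List ℕ) : Bool :=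
  decide (c.length ≤ s.length) && (List.range s.length).all (fun j =>
    bif decide (j < c.length) then s.getD j 0 == (bif c.getD j 0 == 0 then 0 else 1)
    else (s.getD j 0 == 0) || ((s.getD j 0 == 1) && ((j == 0) ||
      (bif decide (par j < c.length) then c.getD (par j) 0 == 1 else s.getD (par j) 0 == 1))))

/-- the word coded by `t` -/
def cs (t : ℕ) : List ℕ := (dec (([] : List ℕ), 0) t).1

/-- the number coded by `t` -/
def ck (t : ℕ) : ℕ := (dec (([] : List ℕ), 0) t).2

/-- the `t`-th set of the question `e`: the zero positions of this word -/
def fw (e t : ℕ) : List ℕ :=
  bif (Nat.unpair e).1 == 0 then
    (List.range ((Nat.unpair e).2 + 1)).map (fun j => bif j == (Nat.unpair e).2 then 0 else 1)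
  else cs t

/-- the condition of the question `e` -/
def qc (e : ℕ) : List ℕ × ℕ × ℕ := dec (([] : List ℕ), 0, 0) (Nat.unpair e).2

/-- the `t`-th set of the question `e` is active -/
def fd (u : List ℕ) (e t : ℕ) : Bool :=
  ((Nat.unpair e).1 == 0) || (decide ((cs t).length ≤ u.length) &&
    (valid (qc e).1 (cs t) &&
      dd φ₁ ψ₂ (u.take (cs t).length) (cs t) (ck t) (qc e).2.1 (qc e).2.2))

/-- no violation is visible -/
def good (u : List ℕ) (e : ℕ) (w : List ℕ) : Bool :=
  (List.range w.length).all (fun σ =>
    (w.getD σ 0 == 0) ||
    (!(decide (σ < (φ₂ u).length) && ((φ₂ u).getD σ 0 == 0)) &&
    (((σ == 0) || !(w.getD (par σ) 0 == 0)) &&
    (isExt σ (Nat.unpair (w.getD σ 0 - 1)).1 &&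
    (isExt σ (Nat.unpair (w.getD σ 0 - 1)).2 &&
    (!(isExt (Nat.unpair (w.getD σ 0 - 1)).1 (Nat.unpair (w.getD σ 0 - 1)).2) &&
    (!(isExt (Nat.unpair (w.getD σ 0 - 1)).2 (Nat.unpair (w.getD σ 0 - 1)).1) &&
    ((!(decide ((Nat.unpair (w.getD σ 0 - 1)).1 < w.length)) ||
        !(w.getD (Nat.unpair (w.getD σ 0 - 1)).1 0 == 0)) &&
    (!(decide ((Nat.unpair (w.getD σ 0 - 1)).2 < w.length)) ||
        !(w.getD (Nat.unpair (w.getD σ 0 - 1)).2 0 == 0)))))))))) &&
  (List.range w.length).all (fun t =>
    !(fd φ₁ ψ₂ u e t && decide ((fw e t).length ≤ w.length)) ||
    (List.range (fw e t).length).any (fun σ => ((fw e t).getD σ 0 == 0) && !(w.getD σ 0 == 0)))

/-- list coded by a number -/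
def dl (j : ℕ) : List ℕ := dec ([] : List ℕ) j

/-- the node number `j` belongs to the tree of questions -/
def inU (w : List ℕ) (j : ℕ) : Bool :=
  (List.range (dl j).length).all (fun k =>
    good φ₁ φ₂ ψ₂ (w.take k) ((dl j).getD ((dl j).length - 1) 0)
      ((List.range k).map (fun i => (dl j).getD ((dl j).length - 2 - i) 0 / 2)))

/-- the forward word function -/
def fwd (w : List ℕ) : List ℕ :=
  (List.range w.length).map (fun j => bif inU φ₁ φ₂ ψ₂ w j then 1 else 0)

/-- states of the construction: condition, computed part of the limit, `m`, search counter -/
abbrev St : Type := List ℕ × List ℕ × ℕ × ℕ

/-- the new condition -/
def nw (c s r : List ℕ) : List ℕ :=
  (List.range s.length).map (fun j => bif decide (j < c.length) then c.getD j 0 else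
    bif s.getD j 0 == 0 then 0 else bif r.getD j 0 == 0 then 2 else 1) ++ [r.getD s.length 0]

/-- one step, given the needed values of the oracles -/
def core (uw rw : List ℕ) (b : ℕ) (S : St) : St :=
  bif !(b == 0) then
    (bif decide (Nat.pair S.2.2.1 S.2.1.length <
        (th φ₁ ψ₂ (uw.take S.1.length) (sg S.1)).length) then
      (S.1 ++ [rw.getD S.1.length 0],
        S.2.1 ++ [(th φ₁ ψ₂ (uw.take S.1.length) (sg S.1)).getD
          (Nat.pair S.2.2.1 S.2.1.length) 0], 0, 0)
    else (S.1 ++ [rw.getD S.1.length 0], S.2.1, S.2.2.1, 0))
  else
    (bif valid S.1 (cs S.2.2.2) && (dd φ₁ ψ₂ (uw.take (cs S.2.2.2).length) (cs S.2.2.2)
        (ck S.2.2.2) S.2.1.length S.2.2.1 &&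
        (List.range (cs S.2.2.2).length).all
          (fun j => !((cs S.2.2.2).getD j 0 == 0) || (rw.getD j 0 == 0))) then
      (nw S.1 (cs S.2.2.2) rw, S.2.1, S.2.2.1 + 1, 0)
    else (S.1, S.2.1, S.2.2.1, S.2.2.2 + 1))

/-- number of the node `[e]` -/
def nd (e : ℕ) : ℕ := Nat.pair e 0 + 1

/-- question: does the node number `j` belong to the largest perfect subtree? -/
def e0 (j : ℕ) : ℕ := Nat.pair 0 j

/-- question about a condition -/
def e1 (x : List ℕ × ℕ × ℕ) : ℕ := Nat.pair 1 (Encodable.encode x)

/-- bound for the oracle queries of a step -/
def need (S : St) : ℕ :=
  2 * (S.1.length + ((cs S.2.2.2).length + (nd (e0 (S.1.length + (cs S.2.2.2).length)) +
    nd (e1 (S.1, S.2.1.length, S.2.2.1))))) + 2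

/-- a step with the oracles given as a finite word of `⟨p, r⟩` -/
def stepW (w : List ℕ) (S : St) : St :=
  bif decide (need S < w.length) then
    core φ₁ ψ₂ ((List.range (S.1.length + (cs S.2.2.2).length)).map (fun i => w.getD (2 * i) 0))
      ((List.range (S.1.length + (cs S.2.2.2).length + 1)).map
        (fun j => w.getD (2 * nd (e0 j) + 1) 0))
      (w.getD (2 * nd (e1 (S.1, S.2.1.length, S.2.2.1)) + 1) 0) S
  else S

/-- the state after as many steps as the length of the word -/
def run (w : List ℕ) : St := (stepW φ₁ ψ₂ w)^[w.length] ([], [], 0, 0)

/-- even part of a word -/
def evens (w : List ℕ) : List ℕ := (List.range (w.length / 2)).map (fun i => w.getD (2 * i) 0)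

/-- the backward word function -/
def bwd (w : List ℕ) : List ℕ :=
  ψ₁ (jw (ψ₂ (jw (evens w) (sg (run φ₁ ψ₂ w).1))) (run φ₁ ψ₂ w).2.1)

end

section
variable {φ₁ ψ₁ φ₂ ψ₂ : List ℕ → List ℕ}
variable {α : Type} [Primcodable α]

theorem c_th (h1 : Computable φ₁) (h2 : Computable ψ₂) {f g : α → List ℕ} (hf : Computable f)
    (hg : Computable g) : Computable fun a => th φ₁ ψ₂ (f a) (g a) :=
  h1.comp (h2.comp (c_jw hf hg))


theorem c_dd (h1 : Computable φ₁) (h2 : Computable ψ₂) {f g : α → List ℕ} {k i m : α → ℕ}
    (hf : Computable f) (hg : Computable g) (hk : Computable k) (hi : Computable i)
    (hm : Computable m) : Computable fun a => dd φ₁ ψ₂ (f a) (g a) (k a) (i a) (m a) := by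
  unfold dd
  repeat' (first
    | with_reducible assumption | with_reducible apply c_th | with_reducible apply c_sg
    | with_reducible apply c_jw | with_reducible apply c_isExt | with_reducible apply c_par
    | with_reducible exact c_id | with_reducible exact c_const _ | with_reducible apply c_fst
    | with_reducible apply c_snd | with_reducible apply c_cond | with_reducible apply c_all
    | with_reducible apply c_any | with_reducible apply c_mapr | with_reducible apply c_and
    | with_reducible apply c_or | with_reducible apply c_not | with_reducible apply c_beq
    | with_reducible apply c_lt | with_reducible apply c_le | with_reducible apply c_add
    | with_reducible apply c_sub | with_reducible apply c_mul | with_reducible apply c_div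
    | with_reducible apply c_mod | with_reducible apply c_min | with_reducible apply c_np
    | with_reducible apply c_unpair | with_reducible apply c_len | with_reducible apply c_getD
    | with_reducible apply c_take | with_reducible apply c_app | with_reducible apply c_sing
    | with_reducible apply c_enc | with_reducible apply c_dec | with_reducible apply c_pair)


theorem c_valid {f g : α → List ℕ}
    (hf : Computable f) (hg : Computable g) : Computable fun a => valid (f a) (g a) := by
  have : Computable fun x : List ℕ × List ℕ => valid x.1 x.2 := by
    unfold valid
    repeat' (first
      | with_reducible assumption | with_reducible apply c_dd | with_reducible apply c_th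
      | with_reducible apply c_sg | with_reducible apply c_jw | with_reducible apply c_isExt
      | with_reducible apply c_par | with_reducible exact c_id | with_reducible exact c_const _
      | with_reducible apply c_fst | with_reducible apply c_snd | with_reducible apply c_cond
      | with_reducible apply c_all | with_reducible apply c_any | with_reducible apply c_mapr
      | with_reducible apply c_and | with_reducible apply c_or | with_reducible apply c_not
      | with_reducible apply c_beq | with_reducible apply c_lt | with_reducible apply c_le
      | with_reducible apply c_add | with_reducible apply c_sub | with_reducible apply c_mul
      | with_reducible apply c_div | with_reducible apply c_mod | with_reducible apply c_min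
      | with_reducible apply c_np | with_reducible apply c_unpair | with_reducible apply c_len
      | with_reducible apply c_getD | with_reducible apply c_take | with_reducible apply c_app
      | with_reducible apply c_sing | with_reducible apply c_enc | with_reducible apply c_dec
      | with_reducible apply c_pair)
  have h := this.comp (hf.pair hg)
  exact h


theorem c_cs {f : α → ℕ} (hf : Computable f) : Computable fun a => cs (f a) := by
  have : Computable cs := by
    unfold cs
    repeat' (first
      | with_reducible assumption | with_reducible apply c_valid | with_reducible apply c_dd
      | with_reducible apply c_th | with_reducible apply c_sg | with_reducible apply c_jw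
      | with_reducible apply c_isExt | with_reducible apply c_par | with_reducible exact c_id
      | with_reducible exact c_const _ | with_reducible apply c_fst | with_reducible apply c_snd
      | with_reducible apply c_cond | with_reducible apply c_all | with_reducible apply c_any
      | with_reducible apply c_mapr | with_reducible apply c_and | with_reducible apply c_or
      | with_reducible apply c_not | with_reducible apply c_beq | with_reducible apply c_lt
      | with_reducible apply c_le | with_reducible apply c_add | with_reducible apply c_sub
      | with_reducible apply c_mul | with_reducible apply c_div | with_reducible apply c_mod
      | with_reducible apply c_min | with_reducible apply c_np | with_reducible apply c_unpair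
      | with_reducible apply c_len | with_reducible apply c_getD | with_reducible apply c_take
      | with_reducible apply c_app | with_reducible apply c_sing | with_reducible apply c_enc
      | with_reducible apply c_dec | with_reducible apply c_pair)
  have h := this.comp hf
  exact h


theorem c_ck {f : α → ℕ} (hf : Computable f) : Computable fun a => ck (f a) := by
  have : Computable ck := by
    unfold ck
    repeat' (first
      | with_reducible assumption | with_reducible apply c_cs | with_reducible apply c_valid
      | with_reducible apply c_dd | with_reducible apply c_th | with_reducible apply c_sg
      | with_reducible apply c_jw | with_reducible apply c_isExt | with_reducible apply c_par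
      | with_reducible exact c_id | with_reducible exact c_const _ | with_reducible apply c_fst
      | with_reducible apply c_snd | with_reducible apply c_cond | with_reducible apply c_all
      | with_reducible apply c_any | with_reducible apply c_mapr | with_reducible apply c_and
      | with_reducible apply c_or | with_reducible apply c_not | with_reducible apply c_beq
      | with_reducible apply c_lt | with_reducible apply c_le | with_reducible apply c_add
      | with_reducible apply c_sub | with_reducible apply c_mul | with_reducible apply c_div
      | with_reducible apply c_mod | with_reducible apply c_min | with_reducible apply c_np
      | with_reducible apply c_unpair | with_reducible apply c_len | with_reducible apply c_getD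
      | with_reducible apply c_take | with_reducible apply c_app | with_reducible apply c_sing
      | with_reducible apply c_enc | with_reducible apply c_dec | with_reducible apply c_pair)
  have h := this.comp hf
  exact h


theorem c_fw {f g : α → ℕ} (hf : Computable f) (hg : Computable g) :
    Computable fun a => fw (f a) (g a) := by
  have : Computable fun x : ℕ × ℕ => fw x.1 x.2 := by
    unfold fw
    repeat' (first
      | with_reducible assumption | with_reducible apply c_ck | with_reducible apply c_cs
      | with_reducible apply c_valid | with_reducible apply c_dd | with_reducible apply c_th
      | with_reducible apply c_sg | with_reducible apply c_jw | with_reducible apply c_isExt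
      | with_reducible apply c_par | with_reducible exact c_id | with_reducible exact c_const _
      | with_reducible apply c_fst | with_reducible apply c_snd | with_reducible apply c_cond
      | with_reducible apply c_all | with_reducible apply c_any | with_reducible apply c_mapr
      | with_reducible apply c_and | with_reducible apply c_or | with_reducible apply c_not
      | with_reducible apply c_beq | with_reducible apply c_lt | with_reducible apply c_le
      | with_reducible apply c_add | with_reducible apply c_sub | with_reducible apply c_mul
      | with_reducible apply c_div | with_reducible apply c_mod | with_reducible apply c_min
      | with_reducible apply c_np | with_reducible apply c_unpair | with_reducible apply c_len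
      | with_reducible apply c_getD | with_reducible apply c_take | with_reducible apply c_app
      | with_reducible apply c_sing | with_reducible apply c_enc | with_reducible apply c_dec
      | with_reducible apply c_pair)
  have h := this.comp (hf.pair hg)
  exact h


theorem c_qc {f : α → ℕ} (hf : Computable f) : Computable fun a => qc (f a) := by
  have : Computable qc := by
    unfold qc
    repeat' (first
      | with_reducible assumption | with_reducible apply c_fw | with_reducible apply c_ck
      | with_reducible apply c_cs | with_reducible apply c_valid | with_reducible apply c_dd
      | with_reducible apply c_th | with_reducible apply c_sg | with_reducible apply c_jw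
      | with_reducible apply c_isExt | with_reducible apply c_par | with_reducible exact c_id
      | with_reducible exact c_const _ | with_reducible apply c_fst | with_reducible apply c_snd
      | with_reducible apply c_cond | with_reducible apply c_all | with_reducible apply c_any
      | with_reducible apply c_mapr | with_reducible apply c_and | with_reducible apply c_or
      | with_reducible apply c_not | with_reducible apply c_beq | with_reducible apply c_lt
      | with_reducible apply c_le | with_reducible apply c_add | with_reducible apply c_sub
      | with_reducible apply c_mul | with_reducible apply c_div | with_reducible apply c_mod
      | with_reducible apply c_min | with_reducible apply c_np | with_reducible apply c_unpair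
      | with_reducible apply c_len | with_reducible apply c_getD | with_reducible apply c_take
      | with_reducible apply c_app | with_reducible apply c_sing | with_reducible apply c_enc
      | with_reducible apply c_dec | with_reducible apply c_pair)
  have h := this.comp hf
  exact h


theorem c_fd (h1 : Computable φ₁) (h2 : Computable ψ₂) {f : α → List ℕ} {g h : α → ℕ}
    (hf : Computable f) (hg : Computable g) (hh : Computable h) :
    Computable fun a => fd φ₁ ψ₂ (f a) (g a) (h a) := by
  have : Computable fun x : List ℕ × ℕ × ℕ => fd φ₁ ψ₂ x.1 x.2.1 x.2.2 := by
    unfold fd
    repeat' (first
      | with_reducible assumption | with_reducible apply c_qc | with_reducible apply c_fw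
      | with_reducible apply c_ck | with_reducible apply c_cs | with_reducible apply c_valid
      | with_reducible apply c_dd | with_reducible apply c_th | with_reducible apply c_sg
      | with_reducible apply c_jw | with_reducible apply c_isExt | with_reducible apply c_par
      | with_reducible exact c_id | with_reducible exact c_const _ | with_reducible apply c_fst
      | with_reducible apply c_snd | with_reducible apply c_cond | with_reducible apply c_all
      | with_reducible apply c_any | with_reducible apply c_mapr | with_reducible apply c_and
      | with_reducible apply c_or | with_reducible apply c_not | with_reducible apply c_beq
      | with_reducible apply c_lt | with_reducible apply c_le | with_reducible apply c_add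
      | with_reducible apply c_sub | with_reducible apply c_mul | with_reducible apply c_div
      | with_reducible apply c_mod | with_reducible apply c_min | with_reducible apply c_np
      | with_reducible apply c_unpair | with_reducible apply c_len | with_reducible apply c_getD
      | with_reducible apply c_take | with_reducible apply c_app | with_reducible apply c_sing
      | with_reducible apply c_enc | with_reducible apply c_dec | with_reducible apply c_pair)
  have h := this.comp (hf.pair (hg.pair hh))
  exact h


theorem c_good (h1 : Computable φ₁) (h2 : Computable ψ₂) (h3 : Computable φ₂)
    {f h : α → List ℕ} {g : α → ℕ}
    (hf : Computable f) (hg : Computable g) (hh : Computable h) :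
    Computable fun a => good φ₁ φ₂ ψ₂ (f a) (g a) (h a) := by
  have h3' : ∀ {β : Type} [Primcodable β] {f : β → List ℕ}, Computable f →
      Computable fun a => φ₂ (f a) := fun hf => h3.comp hf
  have : Computable fun x : List ℕ × ℕ × List ℕ => good φ₁ φ₂ ψ₂ x.1 x.2.1 x.2.2 := by
    unfold good
    repeat' (first
      | with_reducible assumption | with_reducible apply h3' | with_reducible apply c_fd
      | with_reducible apply c_qc | with_reducible apply c_fw | with_reducible apply c_ck
      | with_reducible apply c_cs | with_reducible apply c_valid | with_reducible apply c_dd
      | with_reducible apply c_th | with_reducible apply c_sg | with_reducible apply c_jw
      | with_reducible apply c_isExt | with_reducible apply c_par | with_reducible exact c_id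
      | with_reducible exact c_const _ | with_reducible apply c_fst | with_reducible apply c_snd
      | with_reducible apply c_cond | with_reducible apply c_all | with_reducible apply c_any
      | with_reducible apply c_mapr | with_reducible apply c_and | with_reducible apply c_or
      | with_reducible apply c_not | with_reducible apply c_beq | with_reducible apply c_lt
      | with_reducible apply c_le | with_reducible apply c_add | with_reducible apply c_sub
      | with_reducible apply c_mul | with_reducible apply c_div | with_reducible apply c_mod
      | with_reducible apply c_min | with_reducible apply c_np | with_reducible apply c_unpair
      | with_reducible apply c_len | with_reducible apply c_getD | with_reducible apply c_take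
      | with_reducible apply c_app | with_reducible apply c_sing | with_reducible apply c_enc
      | with_reducible apply c_dec | with_reducible apply c_pair)
  have h := this.comp (hf.pair (hg.pair hh))
  exact h


theorem c_dl {f : α → ℕ} (hf : Computable f) : Computable fun a => dl (f a) := by
  have : Computable dl := by
    unfold dl
    repeat' (first
      | with_reducible assumption | with_reducible apply c_good | with_reducible apply c_fd
      | with_reducible apply c_qc | with_reducible apply c_fw | with_reducible apply c_ck
      | with_reducible apply c_cs | with_reducible apply c_valid | with_reducible apply c_dd
      | with_reducible apply c_th | with_reducible apply c_sg | with_reducible apply c_jw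
      | with_reducible apply c_isExt | with_reducible apply c_par | with_reducible exact c_id
      | with_reducible exact c_const _ | with_reducible apply c_fst | with_reducible apply c_snd
      | with_reducible apply c_cond | with_reducible apply c_all | with_reducible apply c_any
      | with_reducible apply c_mapr | with_reducible apply c_and | with_reducible apply c_or
      | with_reducible apply c_not | with_reducible apply c_beq | with_reducible apply c_lt
      | with_reducible apply c_le | with_reducible apply c_add | with_reducible apply c_sub
      | with_reducible apply c_mul | with_reducible apply c_div | with_reducible apply c_mod
      | with_reducible apply c_min | with_reducible apply c_np | with_reducible apply c_unpair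
      | with_reducible apply c_len | with_reducible apply c_getD | with_reducible apply c_take
      | with_reducible apply c_app | with_reducible apply c_sing | with_reducible apply c_enc
      | with_reducible apply c_dec | with_reducible apply c_pair)
  have h := this.comp hf
  exact h


theorem c_inU (h1 : Computable φ₁) (h2 : Computable ψ₂) (h3 : Computable φ₂)
    {f : α → List ℕ} {g : α → ℕ} (hf : Computable f) (hg : Computable g) :
    Computable fun a => inU φ₁ φ₂ ψ₂ (f a) (g a) := by
  have : Computable fun x : List ℕ × ℕ => inU φ₁ φ₂ ψ₂ x.1 x.2 := by
    unfold inU
    repeat' (first
      | with_reducible assumption | with_reducible apply c_dl | with_reducible apply c_good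
      | with_reducible apply c_fd | with_reducible apply c_qc | with_reducible apply c_fw
      | with_reducible apply c_ck | with_reducible apply c_cs | with_reducible apply c_valid
      | with_reducible apply c_dd | with_reducible apply c_th | with_reducible apply c_sg
      | with_reducible apply c_jw | with_reducible apply c_isExt | with_reducible apply c_par
      | with_reducible exact c_id | with_reducible exact c_const _ | with_reducible apply c_fst
      | with_reducible apply c_snd | with_reducible apply c_cond | with_reducible apply c_all
      | with_reducible apply c_any | with_reducible apply c_mapr | with_reducible apply c_and
      | with_reducible apply c_or | with_reducible apply c_not | with_reducible apply c_beq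
      | with_reducible apply c_lt | with_reducible apply c_le | with_reducible apply c_add
      | with_reducible apply c_sub | with_reducible apply c_mul | with_reducible apply c_div
      | with_reducible apply c_mod | with_reducible apply c_min | with_reducible apply c_np
      | with_reducible apply c_unpair | with_reducible apply c_len | with_reducible apply c_getD
      | with_reducible apply c_take | with_reducible apply c_app | with_reducible apply c_sing
      | with_reducible apply c_enc | with_reducible apply c_dec | with_reducible apply c_pair)
  have h := this.comp (hf.pair hg)
  exact h


theorem c_fwd (h1 : Computable φ₁) (h2 : Computable ψ₂) (h3 : Computable φ₂) :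
    Computable (fwd φ₁ φ₂ ψ₂) := by
  unfold fwd
  repeat' (first
    | with_reducible assumption | with_reducible apply c_inU | with_reducible apply c_dl
    | with_reducible apply c_good | with_reducible apply c_fd | with_reducible apply c_qc
    | with_reducible apply c_fw | with_reducible apply c_ck | with_reducible apply c_cs
    | with_reducible apply c_valid | with_reducible apply c_dd | with_reducible apply c_th
    | with_reducible apply c_sg | with_reducible apply c_jw | with_reducible apply c_isExt
    | with_reducible apply c_par | with_reducible exact c_id | with_reducible exact c_const _
    | with_reducible apply c_fst | with_reducible apply c_snd | with_reducible apply c_cond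
    | with_reducible apply c_all | with_reducible apply c_any | with_reducible apply c_mapr
    | with_reducible apply c_and | with_reducible apply c_or | with_reducible apply c_not
    | with_reducible apply c_beq | with_reducible apply c_lt | with_reducible apply c_le
    | with_reducible apply c_add | with_reducible apply c_sub | with_reducible apply c_mul
    | with_reducible apply c_div | with_reducible apply c_mod | with_reducible apply c_min
    | with_reducible apply c_np | with_reducible apply c_unpair | with_reducible apply c_len
    | with_reducible apply c_getD | with_reducible apply c_take | with_reducible apply c_app
    | with_reducible apply c_sing | with_reducible apply c_enc | with_reducible apply c_dec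
    | with_reducible apply c_pair)

theorem c_nw {f g h : α → List ℕ} (hf : Computable f) (hg : Computable g) (hh : Computable h) :
    Computable fun a => nw (f a) (g a) (h a) := by
  have : Computable fun x : List ℕ × List ℕ × List ℕ => nw x.1 x.2.1 x.2.2 := by
    unfold nw
    repeat' (first
      | with_reducible assumption | with_reducible apply c_inU | with_reducible apply c_dl
      | with_reducible apply c_good | with_reducible apply c_fd | with_reducible apply c_qc
      | with_reducible apply c_fw | with_reducible apply c_ck | with_reducible apply c_cs
      | with_reducible apply c_valid | with_reducible apply c_dd | with_reducible apply c_th
      | with_reducible apply c_sg | with_reducible apply c_jw | with_reducible apply c_isExt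
      | with_reducible apply c_par | with_reducible exact c_id | with_reducible exact c_const _
      | with_reducible apply c_fst | with_reducible apply c_snd | with_reducible apply c_cond
      | with_reducible apply c_all | with_reducible apply c_any | with_reducible apply c_mapr
      | with_reducible apply c_and | with_reducible apply c_or | with_reducible apply c_not
      | with_reducible apply c_beq | with_reducible apply c_lt | with_reducible apply c_le
      | with_reducible apply c_add | with_reducible apply c_sub | with_reducible apply c_mul
      | with_reducible apply c_div | with_reducible apply c_mod | with_reducible apply c_min
      | with_reducible apply c_np | with_reducible apply c_unpair | with_reducible apply c_len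
      | with_reducible apply c_getD | with_reducible apply c_take | with_reducible apply c_app
      | with_reducible apply c_sing | with_reducible apply c_enc | with_reducible apply c_dec
      | with_reducible apply c_pair)
  have h := this.comp (hf.pair (hg.pair hh))
  exact h


theorem c_core (h1 : Computable φ₁) (h2 : Computable ψ₂) {f g : α → List ℕ} {b : α → ℕ}
    {S : α → St} (hf : Computable f) (hg : Computable g) (hb : Computable b) (hS : Computable S) :
    Computable fun a => core φ₁ ψ₂ (f a) (g a) (b a) (S a) := by
  have : Computable fun x : List ℕ × List ℕ × ℕ × St => core φ₁ ψ₂ x.1 x.2.1 x.2.2.1 x.2.2.2 := by
    unfold core
    repeat' (first
      | with_reducible assumption | with_reducible apply c_nw | with_reducible apply c_inU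
      | with_reducible apply c_dl | with_reducible apply c_good | with_reducible apply c_fd
      | with_reducible apply c_qc | with_reducible apply c_fw | with_reducible apply c_ck
      | with_reducible apply c_cs | with_reducible apply c_valid | with_reducible apply c_dd
      | with_reducible apply c_th | with_reducible apply c_sg | with_reducible apply c_jw
      | with_reducible apply c_isExt | with_reducible apply c_par | with_reducible exact c_id
      | with_reducible exact c_const _ | with_reducible apply c_fst | with_reducible apply c_snd
      | with_reducible apply c_cond | with_reducible apply c_all | with_reducible apply c_any
      | with_reducible apply c_mapr | with_reducible apply c_and | with_reducible apply c_or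
      | with_reducible apply c_not | with_reducible apply c_beq | with_reducible apply c_lt
      | with_reducible apply c_le | with_reducible apply c_add | with_reducible apply c_sub
      | with_reducible apply c_mul | with_reducible apply c_div | with_reducible apply c_mod
      | with_reducible apply c_min | with_reducible apply c_np | with_reducible apply c_unpair
      | with_reducible apply c_len | with_reducible apply c_getD | with_reducible apply c_take
      | with_reducible apply c_app | with_reducible apply c_sing | with_reducible apply c_enc
      | with_reducible apply c_dec | with_reducible apply c_pair)
  have h := this.comp (hf.pair (hg.pair (hb.pair hS)))
  exact h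


theorem c_nd {f : α → ℕ} (hf : Computable f) : Computable fun a => nd (f a) := by
  have : Computable nd := by
    unfold nd
    repeat' (first
      | with_reducible assumption | with_reducible apply c_core | with_reducible apply c_nw
      | with_reducible apply c_inU | with_reducible apply c_dl | with_reducible apply c_good
      | with_reducible apply c_fd | with_reducible apply c_qc | with_reducible apply c_fw
      | with_reducible apply c_ck | with_reducible apply c_cs | with_reducible apply c_valid
      | with_reducible apply c_dd | with_reducible apply c_th | with_reducible apply c_sg
      | with_reducible apply c_jw | with_reducible apply c_isExt | with_reducible apply c_par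
      | with_reducible exact c_id | with_reducible exact c_const _ | with_reducible apply c_fst
      | with_reducible apply c_snd | with_reducible apply c_cond | with_reducible apply c_all
      | with_reducible apply c_any | with_reducible apply c_mapr | with_reducible apply c_and
      | with_reducible apply c_or | with_reducible apply c_not | with_reducible apply c_beq
      | with_reducible apply c_lt | with_reducible apply c_le | with_reducible apply c_add
      | with_reducible apply c_sub | with_reducible apply c_mul | with_reducible apply c_div
      | with_reducible apply c_mod | with_reducible apply c_min | with_reducible apply c_np
      | with_reducible apply c_unpair | with_reducible apply c_len | with_reducible apply c_getD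
      | with_reducible apply c_take | with_reducible apply c_app | with_reducible apply c_sing
      | with_reducible apply c_enc | with_reducible apply c_dec | with_reducible apply c_pair)
  have h := this.comp hf
  exact h


theorem c_e0 {f : α → ℕ} (hf : Computable f) : Computable fun a => e0 (f a) := by
  have : Computable e0 := by
    unfold e0
    repeat' (first
      | with_reducible assumption | with_reducible apply c_nd | with_reducible apply c_core
      | with_reducible apply c_nw | with_reducible apply c_inU | with_reducible apply c_dl
      | with_reducible apply c_good | with_reducible apply c_fd | with_reducible apply c_qc
      | with_reducible apply c_fw | with_reducible apply c_ck | with_reducible apply c_cs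
      | with_reducible apply c_valid | with_reducible apply c_dd | with_reducible apply c_th
      | with_reducible apply c_sg | with_reducible apply c_jw | with_reducible apply c_isExt
      | with_reducible apply c_par | with_reducible exact c_id | with_reducible exact c_const _
      | with_reducible apply c_fst | with_reducible apply c_snd | with_reducible apply c_cond
      | with_reducible apply c_all | with_reducible apply c_any | with_reducible apply c_mapr
      | with_reducible apply c_and | with_reducible apply c_or | with_reducible apply c_not
      | with_reducible apply c_beq | with_reducible apply c_lt | with_reducible apply c_le
      | with_reducible apply c_add | with_reducible apply c_sub | with_reducible apply c_mul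
      | with_reducible apply c_div | with_reducible apply c_mod | with_reducible apply c_min
      | with_reducible apply c_np | with_reducible apply c_unpair | with_reducible apply c_len
      | with_reducible apply c_getD | with_reducible apply c_take | with_reducible apply c_app
      | with_reducible apply c_sing | with_reducible apply c_enc | with_reducible apply c_dec
      | with_reducible apply c_pair)
  have h := this.comp hf
  exact h


theorem c_e1 {f : α → List ℕ × ℕ × ℕ} (hf : Computable f) : Computable fun a => e1 (f a) := by
  have : Computable e1 := by
    unfold e1
    repeat' (first
      | with_reducible assumption | with_reducible apply c_e0 | with_reducible apply c_nd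
      | with_reducible apply c_core | with_reducible apply c_nw | with_reducible apply c_inU
      | with_reducible apply c_dl | with_reducible apply c_good | with_reducible apply c_fd
      | with_reducible apply c_qc | with_reducible apply c_fw | with_reducible apply c_ck
      | with_reducible apply c_cs | with_reducible apply c_valid | with_reducible apply c_dd
      | with_reducible apply c_th | with_reducible apply c_sg | with_reducible apply c_jw
      | with_reducible apply c_isExt | with_reducible apply c_par | with_reducible exact c_id
      | with_reducible exact c_const _ | with_reducible apply c_fst | with_reducible apply c_snd
      | with_reducible apply c_cond | with_reducible apply c_all | with_reducible apply c_any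
      | with_reducible apply c_mapr | with_reducible apply c_and | with_reducible apply c_or
      | with_reducible apply c_not | with_reducible apply c_beq | with_reducible apply c_lt
      | with_reducible apply c_le | with_reducible apply c_add | with_reducible apply c_sub
      | with_reducible apply c_mul | with_reducible apply c_div | with_reducible apply c_mod
      | with_reducible apply c_min | with_reducible apply c_np | with_reducible apply c_unpair
      | with_reducible apply c_len | with_reducible apply c_getD | with_reducible apply c_take
      | with_reducible apply c_app | with_reducible apply c_sing | with_reducible apply c_enc
      | with_reducible apply c_dec | with_reducible apply c_pair)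
  have h := this.comp hf
  exact h


theorem c_need {f : α → St} (hf : Computable f) : Computable fun a => need (f a) := by
  have : Computable need := by
    unfold need
    repeat' (first
      | with_reducible assumption | with_reducible apply c_e1 | with_reducible apply c_e0
      | with_reducible apply c_nd | with_reducible apply c_core | with_reducible apply c_nw
      | with_reducible apply c_inU | with_reducible apply c_dl | with_reducible apply c_good
      | with_reducible apply c_fd | with_reducible apply c_qc | with_reducible apply c_fw
      | with_reducible apply c_ck | with_reducible apply c_cs | with_reducible apply c_valid
      | with_reducible apply c_dd | with_reducible apply c_th | with_reducible apply c_sg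
      | with_reducible apply c_jw | with_reducible apply c_isExt | with_reducible apply c_par
      | with_reducible exact c_id | with_reducible exact c_const _ | with_reducible apply c_fst
      | with_reducible apply c_snd | with_reducible apply c_cond | with_reducible apply c_all
      | with_reducible apply c_any | with_reducible apply c_mapr | with_reducible apply c_and
      | with_reducible apply c_or | with_reducible apply c_not | with_reducible apply c_beq
      | with_reducible apply c_lt | with_reducible apply c_le | with_reducible apply c_add
      | with_reducible apply c_sub | with_reducible apply c_mul | with_reducible apply c_div
      | with_reducible apply c_mod | with_reducible apply c_min | with_reducible apply c_np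
      | with_reducible apply c_unpair | with_reducible apply c_len | with_reducible apply c_getD
      | with_reducible apply c_take | with_reducible apply c_app | with_reducible apply c_sing
      | with_reducible apply c_enc | with_reducible apply c_dec | with_reducible apply c_pair)
  have h := this.comp hf
  exact h


theorem c_stepW (h1 : Computable φ₁) (h2 : Computable ψ₂) {f : α → List ℕ} {S : α → St}
    (hf : Computable f) (hS : Computable S) : Computable fun a => stepW φ₁ ψ₂ (f a) (S a) := by
  have : Computable fun x : List ℕ × St => stepW φ₁ ψ₂ x.1 x.2 := by
    unfold stepW
    repeat' (first
      | with_reducible assumption | with_reducible apply c_need | with_reducible apply c_e1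
      | with_reducible apply c_e0 | with_reducible apply c_nd | with_reducible apply c_core
      | with_reducible apply c_nw | with_reducible apply c_inU | with_reducible apply c_dl
      | with_reducible apply c_good | with_reducible apply c_fd | with_reducible apply c_qc
      | with_reducible apply c_fw | with_reducible apply c_ck | with_reducible apply c_cs
      | with_reducible apply c_valid | with_reducible apply c_dd | with_reducible apply c_th
      | with_reducible apply c_sg | with_reducible apply c_jw | with_reducible apply c_isExt
      | with_reducible apply c_par | with_reducible exact c_id | with_reducible exact c_const _
      | with_reducible apply c_fst | with_reducible apply c_snd | with_reducible apply c_cond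
      | with_reducible apply c_all | with_reducible apply c_any | with_reducible apply c_mapr
      | with_reducible apply c_and | with_reducible apply c_or | with_reducible apply c_not
      | with_reducible apply c_beq | with_reducible apply c_lt | with_reducible apply c_le
      | with_reducible apply c_add | with_reducible apply c_sub | with_reducible apply c_mul
      | with_reducible apply c_div | with_reducible apply c_mod | with_reducible apply c_min
      | with_reducible apply c_np | with_reducible apply c_unpair | with_reducible apply c_len
      | with_reducible apply c_getD | with_reducible apply c_take | with_reducible apply c_app
      | with_reducible apply c_sing | with_reducible apply c_enc | with_reducible apply c_dec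
      | with_reducible apply c_pair)
  have h := this.comp (hf.pair hS)
  exact h


theorem c_run (h1 : Computable φ₁) (h2 : Computable ψ₂) {f : α → List ℕ}
    (hf : Computable f) : Computable fun a => run φ₁ ψ₂ (f a) := by
  have : Computable fun x : List ℕ => run φ₁ ψ₂ x := by
    unfold run
    apply c_iter
    · repeat' (first
        | with_reducible assumption | with_reducible apply c_stepW | with_reducible apply c_need
        | with_reducible apply c_e1 | with_reducible apply c_e0 | with_reducible apply c_nd
        | with_reducible apply c_core | with_reducible apply c_nw | with_reducible apply c_inU
        | with_reducible apply c_dl | with_reducible apply c_good | with_reducible apply c_fd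
        | with_reducible apply c_qc | with_reducible apply c_fw | with_reducible apply c_ck
        | with_reducible apply c_cs | with_reducible apply c_valid | with_reducible apply c_dd
        | with_reducible apply c_th | with_reducible apply c_sg | with_reducible apply c_jw
        | with_reducible apply c_isExt | with_reducible apply c_par | with_reducible exact c_id
        | with_reducible exact c_const _ | with_reducible apply c_fst
        | with_reducible apply c_snd | with_reducible apply c_cond | with_reducible apply c_all
        | with_reducible apply c_any | with_reducible apply c_mapr | with_reducible apply c_and
        | with_reducible apply c_or | with_reducible apply c_not | with_reducible apply c_beq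
        | with_reducible apply c_lt | with_reducible apply c_le | with_reducible apply c_add
        | with_reducible apply c_sub | with_reducible apply c_mul | with_reducible apply c_div
        | with_reducible apply c_mod | with_reducible apply c_min | with_reducible apply c_np
        | with_reducible apply c_unpair | with_reducible apply c_len
        | with_reducible apply c_getD | with_reducible apply c_take | with_reducible apply c_app
        | with_reducible apply c_sing | with_reducible apply c_enc | with_reducible apply c_dec
        | with_reducible apply c_pair)
    · repeat' (first
        | with_reducible assumption | with_reducible apply c_stepW | with_reducible apply c_need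
        | with_reducible apply c_e1 | with_reducible apply c_e0 | with_reducible apply c_nd
        | with_reducible apply c_core | with_reducible apply c_nw | with_reducible apply c_inU
        | with_reducible apply c_dl | with_reducible apply c_good | with_reducible apply c_fd
        | with_reducible apply c_qc | with_reducible apply c_fw | with_reducible apply c_ck
        | with_reducible apply c_cs | with_reducible apply c_valid | with_reducible apply c_dd
        | with_reducible apply c_th | with_reducible apply c_sg | with_reducible apply c_jw
        | with_reducible apply c_isExt | with_reducible apply c_par | with_reducible exact c_id
        | with_reducible exact c_const _ | with_reducible apply c_fst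
        | with_reducible apply c_snd | with_reducible apply c_cond | with_reducible apply c_all
        | with_reducible apply c_any | with_reducible apply c_mapr | with_reducible apply c_and
        | with_reducible apply c_or | with_reducible apply c_not | with_reducible apply c_beq
        | with_reducible apply c_lt | with_reducible apply c_le | with_reducible apply c_add
        | with_reducible apply c_sub | with_reducible apply c_mul | with_reducible apply c_div
        | with_reducible apply c_mod | with_reducible apply c_min | with_reducible apply c_np
        | with_reducible apply c_unpair | with_reducible apply c_len
        | with_reducible apply c_getD | with_reducible apply c_take | with_reducible apply c_app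
        | with_reducible apply c_sing | with_reducible apply c_enc | with_reducible apply c_dec
        | with_reducible apply c_pair)
    · repeat' (first
        | with_reducible assumption | with_reducible apply c_stepW | with_reducible apply c_need
        | with_reducible apply c_e1 | with_reducible apply c_e0 | with_reducible apply c_nd
        | with_reducible apply c_core | with_reducible apply c_nw | with_reducible apply c_inU
        | with_reducible apply c_dl | with_reducible apply c_good | with_reducible apply c_fd
        | with_reducible apply c_qc | with_reducible apply c_fw | with_reducible apply c_ck
        | with_reducible apply c_cs | with_reducible apply c_valid | with_reducible apply c_dd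
        | with_reducible apply c_th | with_reducible apply c_sg | with_reducible apply c_jw
        | with_reducible apply c_isExt | with_reducible apply c_par | with_reducible exact c_id
        | with_reducible exact c_const _ | with_reducible apply c_fst
        | with_reducible apply c_snd | with_reducible apply c_cond | with_reducible apply c_all
        | with_reducible apply c_any | with_reducible apply c_mapr | with_reducible apply c_and
        | with_reducible apply c_or | with_reducible apply c_not | with_reducible apply c_beq
        | with_reducible apply c_lt | with_reducible apply c_le | with_reducible apply c_add
        | with_reducible apply c_sub | with_reducible apply c_mul | with_reducible apply c_div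
        | with_reducible apply c_mod | with_reducible apply c_min | with_reducible apply c_np
        | with_reducible apply c_unpair | with_reducible apply c_len
        | with_reducible apply c_getD | with_reducible apply c_take | with_reducible apply c_app
        | with_reducible apply c_sing | with_reducible apply c_enc | with_reducible apply c_dec
        | with_reducible apply c_pair)
  have h := this.comp hf
  exact h


theorem c_bwd (h1 : Computable φ₁) (h2 : Computable ψ₂) (h4 : Computable ψ₁) :
    Computable (bwd φ₁ ψ₁ ψ₂) := by
  unfold bwd
  refine h4.comp (c_jw (h2.comp (c_jw ?_ ?_)) ?_)
  · unfold evens
    repeat' (first
      | with_reducible assumption | with_reducible apply c_run | with_reducible apply c_stepW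
      | with_reducible apply c_need | with_reducible apply c_e1 | with_reducible apply c_e0
      | with_reducible apply c_nd | with_reducible apply c_core | with_reducible apply c_nw
      | with_reducible apply c_inU | with_reducible apply c_dl | with_reducible apply c_good
      | with_reducible apply c_fd | with_reducible apply c_qc | with_reducible apply c_fw
      | with_reducible apply c_ck | with_reducible apply c_cs | with_reducible apply c_valid
      | with_reducible apply c_dd | with_reducible apply c_th | with_reducible apply c_sg
      | with_reducible apply c_jw | with_reducible apply c_isExt | with_reducible apply c_par
      | with_reducible exact c_id | with_reducible exact c_const _ | with_reducible apply c_fst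
      | with_reducible apply c_snd | with_reducible apply c_cond | with_reducible apply c_all
      | with_reducible apply c_any | with_reducible apply c_mapr | with_reducible apply c_and
      | with_reducible apply c_or | with_reducible apply c_not | with_reducible apply c_beq
      | with_reducible apply c_lt | with_reducible apply c_le | with_reducible apply c_add
      | with_reducible apply c_sub | with_reducible apply c_mul | with_reducible apply c_div
      | with_reducible apply c_mod | with_reducible apply c_min | with_reducible apply c_np
      | with_reducible apply c_unpair | with_reducible apply c_len | with_reducible apply c_getD
      | with_reducible apply c_take | with_reducible apply c_app | with_reducible apply c_sing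
      | with_reducible apply c_enc | with_reducible apply c_dec | with_reducible apply c_pair)
  · repeat' (first
      | with_reducible assumption | with_reducible apply c_run | with_reducible apply c_stepW
      | with_reducible apply c_need | with_reducible apply c_e1 | with_reducible apply c_e0
      | with_reducible apply c_nd | with_reducible apply c_core | with_reducible apply c_nw
      | with_reducible apply c_inU | with_reducible apply c_dl | with_reducible apply c_good
      | with_reducible apply c_fd | with_reducible apply c_qc | with_reducible apply c_fw
      | with_reducible apply c_ck | with_reducible apply c_cs | with_reducible apply c_valid
      | with_reducible apply c_dd | with_reducible apply c_th | with_reducible apply c_sg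
      | with_reducible apply c_jw | with_reducible apply c_isExt | with_reducible apply c_par
      | with_reducible exact c_id | with_reducible exact c_const _ | with_reducible apply c_fst
      | with_reducible apply c_snd | with_reducible apply c_cond | with_reducible apply c_all
      | with_reducible apply c_any | with_reducible apply c_mapr | with_reducible apply c_and
      | with_reducible apply c_or | with_reducible apply c_not | with_reducible apply c_beq
      | with_reducible apply c_lt | with_reducible apply c_le | with_reducible apply c_add
      | with_reducible apply c_sub | with_reducible apply c_mul | with_reducible apply c_div
      | with_reducible apply c_mod | with_reducible apply c_min | with_reducible apply c_np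
      | with_reducible apply c_unpair | with_reducible apply c_len | with_reducible apply c_getD
      | with_reducible apply c_take | with_reducible apply c_app | with_reducible apply c_sing
      | with_reducible apply c_enc | with_reducible apply c_dec | with_reducible apply c_pair)
  · repeat' (first
      | with_reducible assumption | with_reducible apply c_run | with_reducible apply c_stepW
      | with_reducible apply c_need | with_reducible apply c_e1 | with_reducible apply c_e0
      | with_reducible apply c_nd | with_reducible apply c_core | with_reducible apply c_nw
      | with_reducible apply c_inU | with_reducible apply c_dl | with_reducible apply c_good
      | with_reducible apply c_fd | with_reducible apply c_qc | with_reducible apply c_fw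
      | with_reducible apply c_ck | with_reducible apply c_cs | with_reducible apply c_valid
      | with_reducible apply c_dd | with_reducible apply c_th | with_reducible apply c_sg
      | with_reducible apply c_jw | with_reducible apply c_isExt | with_reducible apply c_par
      | with_reducible exact c_id | with_reducible exact c_const _ | with_reducible apply c_fst
      | with_reducible apply c_snd | with_reducible apply c_cond | with_reducible apply c_all
      | with_reducible apply c_any | with_reducible apply c_mapr | with_reducible apply c_and
      | with_reducible apply c_or | with_reducible apply c_not | with_reducible apply c_beq
      | with_reducible apply c_lt | with_reducible apply c_le | with_reducible apply c_add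
      | with_reducible apply c_sub | with_reducible apply c_mul | with_reducible apply c_div
      | with_reducible apply c_mod | with_reducible apply c_min | with_reducible apply c_np
      | with_reducible apply c_unpair | with_reducible apply c_len | with_reducible apply c_getD
      | with_reducible apply c_take | with_reducible apply c_app | with_reducible apply c_sing
      | with_reducible apply c_enc | with_reducible apply c_dec | with_reducible apply c_pair)

end

end R577.PKL
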