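import Pool.Agent.R577.PK.Fun

/-! Correctness of the construction. -/

open Filter Topology

namespace R577.PKL

/-- invariant of the conditions -/
def Inv (P : ℕ → Prop) (c : List ℕ) : Prop :=
  ∀ j < c.length, (c.getD j 0 = 1 ↔ P j) ∧ (c.getD j 0 ≠ 0 → j ≠ 0 → c.getD (par j) 0 ≠ 0)

/-- extension of conditions -/
def Ext (c c' : List ℕ) : Prop :=
  c <+: c' ∧ ∀ j, c.length ≤ j → j < c'.length → c'.getD j 0 ≠ 0 → j ≠ 0 → par j < c.length →
    c.getD (par j) 0 = 1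

theorem getD_prefix {c c' : List ℕ} (h : c <+: c') {j : ℕ} (hj : j < c.length) :
    c'.getD j 0 = c.getD j 0 := by
  obtain ⟨ρ, rfl⟩ := h
  simp only [List.getD_eq_getElem?_getD]
  rw [List.getElem?_append_left hj]

theorem Ext.refl (c : List ℕ) : Ext c c := ⟨List.prefix_refl _, fun j h1 h2 => by omega⟩

theorem Ext.trans {c c' c'' : List ℕ} (h : Ext c c') (h' : Ext c' c'') : Ext c c'' := by
  refine ⟨h.1.trans h'.1, fun j h1 h2 h3 h4 h5 => ?_⟩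
  by_cases hj : j < c'.length
  · rw [getD_prefix h'.1 hj] at h3
    exact h.2 j h1 hj h3 h4 h5
  · have hl := h.1.length_le
    have := h'.2 j (by omega) h2 h3 h4 (by omega)
    rwa [getD_prefix h.1 h5] at this

section
variable {P : ℕ → Prop} {r0 : ℕ → ℕ}

theorem getD_snoc (c : List ℕ) (v : ℕ) : (c ++ [v]).getD c.length 0 = v := by
  simp [List.getD_eq_getElem?_getD]

theorem snoc_inv (H0 : ∀ j, (r0 j = 1 ∧ P j) ∨ (r0 j = 0 ∧ ¬ P j)) (HP : ∀ j, P j → P (par j))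
    {c : List ℕ} (hc : Inv P c) : Inv P (c ++ [r0 c.length]) ∧ Ext c (c ++ [r0 c.length]) := by
  have hpre : c <+: c ++ [r0 c.length] := List.prefix_append _ _
  have hpar : c.length ≠ 0 → r0 c.length ≠ 0 → c.getD (par c.length) 0 = 1 := by
    intro h1 h2
    rcases H0 c.length with ⟨-, h3⟩ | ⟨h3, -⟩
    · exact (hc _ (par_lt h1)).1.2 (HP _ h3)
    · exact absurd h3 h2
  constructor
  · intro j hj
    simp only [List.length_append, List.length_cons, List.length_nil] at hj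
    by_cases h : j < c.length
    · have hp : par j < c.length := by
        by_cases h0 : j = 0
        · rw [h0, par_zero]; omega
        · have := par_lt h0; omega
      rw [getD_prefix hpre h, getD_prefix hpre hp]
      exact hc j h
    · have : j = c.length := by omega
      subst this
      rw [getD_snoc]
      constructor
      · rcases H0 c.length with ⟨h1, h2⟩ | ⟨h1, h2⟩
        · simp [h1, h2]
        · simp [h1, h2]
      · intro h1 h2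
        rw [getD_prefix hpre (par_lt h2), hpar h2 h1]
        exact one_ne_zero
  · refine ⟨hpre, fun j h1 h2 h3 h4 h5 => ?_⟩
    simp only [List.length_append, List.length_cons, List.length_nil] at h2
    have : j = c.length := by omega
    subst this
    rw [getD_snoc] at h3
    exact hpar h4 h3

theorem valid_iff {c s : List ℕ} : valid c s = true ↔ c.length ≤ s.length ∧
    (∀ j < c.length, s.getD j 0 = if c.getD j 0 = 0 then 0 else 1) ∧
    (∀ j < s.length, c.length ≤ j → s.getD j 0 = 0 ∨ (s.getD j 0 = 1 ∧ (j = 0 ∨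
      ((par j < c.length ∧ c.getD (par j) 0 = 1) ∨ (c.length ≤ par j ∧ s.getD (par j) 0 = 1))))) := by
  unfold valid
  simp only [Bool.and_eq_true, decide_eq_true_eq, List.all_eq_true, List.mem_range]
  constructor
  · rintro ⟨h1, h2⟩
    refine ⟨h1, fun j hj => ?_, fun j hj hcj => ?_⟩
    · have := h2 j (by omega)
      rw [decide_eq_true hj, cond_true, beq_iff_eq] at this
      rw [this]
      by_cases h0 : c.getD j 0 = 0
      · rw [h0, if_pos rfl]; rfl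
      · have h3 : (c.getD j 0 == 0) = false := by simpa using h0
        rw [h3, if_neg h0]; rfl
    · have := h2 j hj
      rw [decide_eq_false (by omega), cond_false, Bool.or_eq_true, beq_iff_eq, Bool.and_eq_true,
        beq_iff_eq, Bool.or_eq_true, beq_iff_eq] at this
      rcases this with h3 | ⟨h3, h4 | h4⟩
      · exact Or.inl h3
      · exact Or.inr ⟨h3, Or.inl h4⟩
      · right
        refine ⟨h3, Or.inr ?_⟩
        by_cases hp : par j < c.length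
        · rw [decide_eq_true hp, cond_true, beq_iff_eq] at h4
          exact Or.inl ⟨hp, h4⟩
        · rw [decide_eq_false hp, cond_false, beq_iff_eq] at h4
          exact Or.inr ⟨by omega, h4⟩
  · rintro ⟨h1, h2, h3⟩
    refine ⟨h1, fun j hj => ?_⟩
    by_cases hcj : j < c.length
    · rw [decide_eq_true hcj, cond_true, beq_iff_eq, h2 j hcj]
      by_cases h0 : c.getD j 0 = 0
      · rw [h0, if_pos rfl]; rfl
      · have h3 : (c.getD j 0 == 0) = false := by simpa using h0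
        rw [h3, if_neg h0]; rfl
    · rw [decide_eq_false hcj, cond_false, Bool.or_eq_true, beq_iff_eq, Bool.and_eq_true,
        beq_iff_eq, Bool.or_eq_true, beq_iff_eq]
      rcases h3 j hj (by omega) with h4 | ⟨h4, h5 | ⟨h5, h6⟩ | ⟨h5, h6⟩⟩
      · exact Or.inl h4
      · exact Or.inr ⟨h4, Or.inl h5⟩
      · right
        refine ⟨h4, Or.inr ?_⟩
        rw [decide_eq_true h5, cond_true, beq_iff_eq]; exact h6
      · right
        refine ⟨h4, Or.inr ?_⟩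
        rw [decide_eq_false (by omega), cond_false, beq_iff_eq]; exact h6

theorem valid_of_ext {c c' : List ℕ} (h : Ext c c') (hI : Inv P c') : valid c (sg c') = true := by
  rw [valid_iff, sg_length]
  refine ⟨h.1.length_le, fun j hj => ?_, fun j hj hcj => ?_⟩
  · have := h.1.length_le
    rw [sg_getD _ _ (by omega), getD_prefix h.1 hj]
  · rw [sg_getD _ _ hj]
    by_cases h0 : c'.getD j 0 = 0
    · left; rw [if_pos h0]
    · right
      rw [if_neg h0]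
      refine ⟨rfl, ?_⟩
      by_cases hj0 : j = 0
      · exact Or.inl hj0
      · right
        by_cases hp : par j < c.length
        · exact Or.inl ⟨hp, h.2 j hcj hj h0 hj0 hp⟩
        · right
          refine ⟨by omega, ?_⟩
          rw [sg_getD _ _ (by have := par_lt hj0; omega), if_neg ((hI j hj).2 h0 hj0)]

theorem nw_props (H0 : ∀ j, (r0 j = 1 ∧ P j) ∨ (r0 j = 0 ∧ ¬ P j)) (HP : ∀ j, P j → P (par j))
    {c s : List ℕ} (hc : Inv P c) (hv : valid c s = true)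
    (hz : ∀ j < s.length, s.getD j 0 = 0 → ¬ P j) (N : ℕ) (hN : s.length < N) :
    Inv P (nw c s ((List.range N).map r0)) ∧ Ext c (nw c s ((List.range N).map r0)) ∧
    (nw c s ((List.range N).map r0)).length = s.length + 1 ∧
    ∀ j < s.length, (if (nw c s ((List.range N).map r0)).getD j 0 = 0 then 0 else 1) =
      s.getD j 0 := by
  classical
  obtain ⟨h1, h2, h3⟩ := valid_iff.1 hv
  set c1 : List ℕ := (List.range s.length).map (fun j => bif decide (j < c.length) then c.getD j 0 else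
    bif s.getD j 0 == 0 then 0 else bif ((List.range N).map r0).getD j 0 == 0 then 2 else 1) with hc1
  have hl1 : c1.length = s.length := by simp [hc1]
  have hnw : nw c s ((List.range N).map r0) = c1 ++ [r0 c1.length] := by
    unfold nw
    rw [getD_mapr _ _ _ hN, hl1]
  have g1 : ∀ j < c.length, c1.getD j 0 = c.getD j 0 := by
    intro j hj
    rw [hc1, getD_mapr _ _ _ (by omega), decide_eq_true hj]; rfl
  have g2 : ∀ j < s.length, c.length ≤ j →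
      c1.getD j 0 = if s.getD j 0 = 0 then 0 else if P j then 1 else 2 := by
    intro j hj hcj
    rw [hc1, getD_mapr _ _ _ hj, decide_eq_false (by omega), cond_false, getD_mapr _ _ _ (by omega)]
    by_cases hs : s.getD j 0 = 0
    · rw [hs, if_pos rfl]; rfl
    · have h4 : (s.getD j 0 == 0) = false := by simpa using hs
      rw [h4, cond_false, if_neg hs]
      rcases H0 j with ⟨h5, h6⟩ | ⟨h5, h6⟩
      · rw [h5, if_pos h6]; rfl
      · rw [h5, if_neg h6]; rfl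
  have hpre : c <+: c1 := by
    rw [List.prefix_iff_eq_take]
    apply ext_getD
    · rw [List.length_take, hl1]; omega
    · intro i hi
      rw [← g1 i hi]
      simp only [List.getD_eq_getElem?_getD]
      rw [List.getElem?_take_of_lt hi]
  have hne : ∀ j < s.length, c.length ≤ j → c1.getD j 0 ≠ 0 → j ≠ 0 →
      ((par j < c.length ∧ c.getD (par j) 0 = 1) ∨ (c.length ≤ par j ∧ s.getD (par j) 0 = 1)) := by
    intro j hj hcj h0 hj0
    rw [g2 j hj hcj] at h0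
    rcases h3 j hj hcj with h4 | ⟨h4, h5 | h5⟩
    · rw [if_pos h4] at h0; exact absurd rfl h0
    · exact absurd h5 hj0
    · exact h5
  have hI1 : Inv P c1 := by
    intro j hj
    rw [hl1] at hj
    by_cases hcj : j < c.length
    · have hp : par j < c.length := by
        by_cases h0 : j = 0
        · rw [h0, par_zero]; omega
        · have := par_lt h0; omega
      rw [g1 j hcj, g1 _ hp]
      exact hc j hcj
    · constructor
      · rw [g2 j hj (by omega)]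
        by_cases hs : s.getD j 0 = 0
        · rw [if_pos hs]
          simp [hz j hj hs]
        · rw [if_neg hs]
          by_cases hP : P j
          · simp [hP]
          · simp [hP]
      · intro h0 hj0
        rcases hne j hj (by omega) h0 hj0 with ⟨h4, h5⟩ | ⟨h4, h5⟩
        · rw [g1 _ h4, h5]; exact one_ne_zero
        · rw [g2 _ (by have := par_lt hj0; omega) h4, if_neg (by rw [h5]; exact one_ne_zero)]
          split_ifs <;> simp
  have hE1 : Ext c c1 := by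
    refine ⟨hpre, fun j h4 h5 h6 h7 h8 => ?_⟩
    rw [hl1] at h5
    rcases hne j h5 h4 h6 h7 with ⟨-, h9⟩ | ⟨h9, -⟩
    · exact h9
    · omega
  obtain ⟨k1, k2⟩ := snoc_inv H0 HP hI1
  rw [hnw]
  refine ⟨k1, hE1.trans k2, by simp [hl1], fun j hj => ?_⟩
  rw [getD_prefix (List.prefix_append _ _) (by omega)]
  by_cases hcj : j < c.length
  · rw [g1 j hcj, h2 j hcj]
  · rw [g2 j hj (by omega)]
    rcases h3 j hj (by omega) with h4 | ⟨h4, -⟩
    · rw [h4]; simp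
    · rw [h4, if_neg one_ne_zero]
      split_ifs <;> simp_all

end

section
variable {φ₁ ψ₂ : List ℕ → List ℕ} {p : ℕ → ℕ} {P : ℕ → Prop} {r0 : ℕ → ℕ}
  {r1 : List ℕ × ℕ × ℕ → ℕ}

/-- step with the ideal oracles -/
def istep (φ₁ ψ₂ : List ℕ → List ℕ) (p r0 : ℕ → ℕ) (r1 : List ℕ × ℕ × ℕ → ℕ) (S : St) : St :=
  core φ₁ ψ₂ (pre p (S.1.length + (cs S.2.2.2).length))
    ((List.range (S.1.length + (cs S.2.2.2).length + 1)).map r0)
    (r1 (S.1, S.2.1.length, S.2.2.1)) S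

/-- the sequence of states -/
def st (φ₁ ψ₂ : List ℕ → List ℕ) (p r0 : ℕ → ℕ) (r1 : List ℕ × ℕ × ℕ → ℕ) (n : ℕ) : St :=
  (istep φ₁ ψ₂ p r0 r1)^[n] ([], [], 0, 0)

theorem st_succ (n : ℕ) : st φ₁ ψ₂ p r0 r1 (n + 1) = istep φ₁ ψ₂ p r0 r1 (st φ₁ ψ₂ p r0 r1 n) := by
  simp only [st, Function.iterate_succ', Function.comp]

/-- success of the candidate `t` -/
def Sc (φ₁ ψ₂ : List ℕ → List ℕ) (p : ℕ → ℕ) (P : ℕ → Prop) (c : List ℕ) (i m t : ℕ) : Prop :=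
  valid c (cs t) = true ∧ dd φ₁ ψ₂ (pre p (cs t).length) (cs t) (ck t) i m = true ∧
    ∀ j < (cs t).length, (cs t).getD j 0 = 0 → ¬ P j

theorem istep_A {S : St} (h : r1 (S.1, S.2.1.length, S.2.2.1) ≠ 0)
    (h2 : Nat.pair S.2.2.1 S.2.1.length < (th φ₁ ψ₂ (pre p S.1.length) (sg S.1)).length) :
    istep φ₁ ψ₂ p r0 r1 S = (S.1 ++ [r0 S.1.length],
      S.2.1 ++ [(th φ₁ ψ₂ (pre p S.1.length) (sg S.1)).getD (Nat.pair S.2.2.1 S.2.1.length) 0],
      0, 0) := by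
  unfold istep core
  have hb : (r1 (S.1, S.2.1.length, S.2.2.1) == 0) = false := by simpa using h
  rw [hb, pre_take, min_eq_left (by omega), decide_eq_true h2, getD_mapr _ _ _ (by omega)]
  rfl

theorem istep_B {S : St} (h : r1 (S.1, S.2.1.length, S.2.2.1) ≠ 0)
    (h2 : ¬ Nat.pair S.2.2.1 S.2.1.length < (th φ₁ ψ₂ (pre p S.1.length) (sg S.1)).length) :
    istep φ₁ ψ₂ p r0 r1 S = (S.1 ++ [r0 S.1.length], S.2.1, S.2.2.1, 0) := by
  unfold istep core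
  have hb : (r1 (S.1, S.2.1.length, S.2.2.1) == 0) = false := by simpa using h
  rw [hb, pre_take, min_eq_left (by omega), decide_eq_false h2, getD_mapr _ _ _ (by omega)]
  rfl

theorem cond_iff (H0 : ∀ j, (r0 j = 1 ∧ P j) ∨ (r0 j = 0 ∧ ¬ P j)) (S : St) :
    (valid S.1 (cs S.2.2.2) && (dd φ₁ ψ₂ ((pre p (S.1.length + (cs S.2.2.2).length)).take
        (cs S.2.2.2).length) (cs S.2.2.2) (ck S.2.2.2) S.2.1.length S.2.2.1 &&
        (List.range (cs S.2.2.2).length).all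
          (fun j => !((cs S.2.2.2).getD j 0 == 0) ||
            (((List.range (S.1.length + (cs S.2.2.2).length + 1)).map r0).getD j 0 == 0)))) = true ↔
      Sc φ₁ ψ₂ p P S.1 S.2.1.length S.2.2.1 S.2.2.2 := by
  unfold Sc
  rw [pre_take, min_eq_left (by omega)]
  simp only [Bool.and_eq_true, List.all_eq_true, List.mem_range, Bool.or_eq_true,
    Bool.not_eq_true', beq_eq_false_iff_ne, ne_eq, beq_iff_eq]
  apply and_congr Iff.rfl
  apply and_congr Iff.rfl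
  apply forall₂_congr
  intro j hj
  rw [getD_mapr _ _ _ (by omega)]
  constructor
  · rintro (h | h) h'
    · exact absurd h' h
    · rcases H0 j with ⟨h1, -⟩ | ⟨-, h2⟩
      · omega
      · exact h2
  · intro h
    by_cases h' : (cs S.2.2.2).getD j 0 = 0
    · right
      rcases H0 j with ⟨-, h2⟩ | ⟨h1, -⟩
      · exact absurd h2 (h h')
      · exact h1
    · exact Or.inl h'

theorem istep_C (H0 : ∀ j, (r0 j = 1 ∧ P j) ∨ (r0 j = 0 ∧ ¬ P j)) {S : St}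
    (h : r1 (S.1, S.2.1.length, S.2.2.1) = 0)
    (h2 : Sc φ₁ ψ₂ p P S.1 S.2.1.length S.2.2.1 S.2.2.2) :
    istep φ₁ ψ₂ p r0 r1 S = (nw S.1 (cs S.2.2.2)
      ((List.range (S.1.length + (cs S.2.2.2).length + 1)).map r0), S.2.1, S.2.2.1 + 1, 0) := by
  unfold istep core
  rw [(cond_iff H0 S).2 h2, h]
  rfl

theorem istep_D (H0 : ∀ j, (r0 j = 1 ∧ P j) ∨ (r0 j = 0 ∧ ¬ P j)) {S : St}
    (h : r1 (S.1, S.2.1.length, S.2.2.1) = 0)
    (h2 : ¬ Sc φ₁ ψ₂ p P S.1 S.2.1.length S.2.2.1 S.2.2.2) :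
    istep φ₁ ψ₂ p r0 r1 S = (S.1, S.2.1, S.2.2.1, S.2.2.2 + 1) := by
  unfold istep core
  have : (valid S.1 (cs S.2.2.2) && (dd φ₁ ψ₂ ((pre p (S.1.length + (cs S.2.2.2).length)).take
        (cs S.2.2.2).length) (cs S.2.2.2) (ck S.2.2.2) S.2.1.length S.2.2.1 &&
        (List.range (cs S.2.2.2).length).all
          (fun j => !((cs S.2.2.2).getD j 0 == 0) ||
            (((List.range (S.1.length + (cs S.2.2.2).length + 1)).map r0).getD j 0 == 0)))) =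
      false := by
    rw [← Bool.not_eq_true, cond_iff H0 S]
    exact h2
  rw [this, h]
  rfl


/-- the assumptions on the oracles -/
structure Orc (φ₁ ψ₂ : List ℕ → List ℕ) (p : ℕ → ℕ) (P : ℕ → Prop) (r0 : ℕ → ℕ)
    (r1 : List ℕ × ℕ × ℕ → ℕ) : Prop where
  H0 : ∀ j, (r0 j = 1 ∧ P j) ∨ (r0 j = 0 ∧ ¬ P j)
  H1 : ∀ c i m, r1 (c, i, m) ≠ 0 ↔ ∀ t, valid c (cs t) = true →
    dd φ₁ ψ₂ (pre p (cs t).length) (cs t) (ck t) i m = true →
      ∃ j < (cs t).length, (cs t).getD j 0 = 0 ∧ P j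
  HP : ∀ j, P j → P (par j)

theorem step_props (O : Orc φ₁ ψ₂ p P r0 r1) {S : St} (hI : Inv P S.1) :
    Inv P (istep φ₁ ψ₂ p r0 r1 S).1 ∧ Ext S.1 (istep φ₁ ψ₂ p r0 r1 S).1 := by
  by_cases h : r1 (S.1, S.2.1.length, S.2.2.1) = 0
  · by_cases h2 : Sc φ₁ ψ₂ p P S.1 S.2.1.length S.2.2.1 S.2.2.2
    · rw [istep_C O.H0 h h2]
      have := nw_props O.H0 O.HP hI h2.1 h2.2.2 (S.1.length + (cs S.2.2.2).length + 1) (by omega)
      exact ⟨this.1, this.2.1⟩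
    · rw [istep_D O.H0 h h2]
      exact ⟨hI, Ext.refl _⟩
  · by_cases h2 : Nat.pair S.2.2.1 S.2.1.length < (th φ₁ ψ₂ (pre p S.1.length) (sg S.1)).length
    · rw [istep_A h h2]
      exact snoc_inv O.H0 O.HP hI
    · rw [istep_B h h2]
      exact snoc_inv O.H0 O.HP hI

theorem st_inv (O : Orc φ₁ ψ₂ p P r0 r1) (n : ℕ) : Inv P (st φ₁ ψ₂ p r0 r1 n).1 := by
  induction n with
  | zero => intro j hj; simp [st] at hj
  | succ n ih => rw [st_succ]; exact (step_props O ih).1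

theorem st_ext (O : Orc φ₁ ψ₂ p P r0 r1) {m n : ℕ} (h : m ≤ n) : Ext (st φ₁ ψ₂ p r0 r1 m).1 (st φ₁ ψ₂ p r0 r1 n).1 := by
  induction n, h using Nat.le_induction with
  | base => exact Ext.refl _
  | succ n hmn ih => rw [st_succ]; exact ih.trans (step_props O (st_inv O n)).2

/-- all smaller candidates have failed -/
theorem st_fail (O : Orc φ₁ ψ₂ p P r0 r1) (n : ℕ) :
    ∀ t < (st φ₁ ψ₂ p r0 r1 n).2.2.2, ¬ Sc φ₁ ψ₂ p P (st φ₁ ψ₂ p r0 r1 n).1 (st φ₁ ψ₂ p r0 r1 n).2.1.length (st φ₁ ψ₂ p r0 r1 n).2.2.1 t := by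
  induction n with
  | zero => intro t ht; simp [st] at ht
  | succ n ih =>
    rw [st_succ]
    by_cases h : r1 ((st φ₁ ψ₂ p r0 r1 n).1, (st φ₁ ψ₂ p r0 r1 n).2.1.length, (st φ₁ ψ₂ p r0 r1 n).2.2.1) = 0
    · by_cases h2 : Sc φ₁ ψ₂ p P (st φ₁ ψ₂ p r0 r1 n).1 (st φ₁ ψ₂ p r0 r1 n).2.1.length (st φ₁ ψ₂ p r0 r1 n).2.2.1 (st φ₁ ψ₂ p r0 r1 n).2.2.2
      · rw [istep_C O.H0 h h2]
        intro t ht; exact absurd ht (Nat.not_lt_zero _)
      · rw [istep_D O.H0 h h2]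
        intro t ht
        rcases Nat.lt_succ_iff_lt_or_eq.1 ht with ht | rfl
        · exact ih t ht
        · exact h2
    · by_cases h2 : Nat.pair (st φ₁ ψ₂ p r0 r1 n).2.2.1 (st φ₁ ψ₂ p r0 r1 n).2.1.length <
          (th φ₁ ψ₂ (pre p (st φ₁ ψ₂ p r0 r1 n).1.length) (sg (st φ₁ ψ₂ p r0 r1 n).1)).length
      · rw [istep_A h h2]
        intro t ht; exact absurd ht (Nat.not_lt_zero _)
      · rw [istep_B h h2]
        intro t ht; exact absurd ht (Nat.not_lt_zero _)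

/-- after finitely many search steps there is a real step -/
theorem exists_real (O : Orc φ₁ ψ₂ p P r0 r1) (n : ℕ) :
    ∃ n' ≥ n, ((st φ₁ ψ₂ p r0 r1 n').1 = (st φ₁ ψ₂ p r0 r1 n).1 ∧ (st φ₁ ψ₂ p r0 r1 n').2.1 = (st φ₁ ψ₂ p r0 r1 n).2.1 ∧ (st φ₁ ψ₂ p r0 r1 n').2.2.1 = (st φ₁ ψ₂ p r0 r1 n).2.2.1) ∧
      ¬ (r1 ((st φ₁ ψ₂ p r0 r1 n').1, (st φ₁ ψ₂ p r0 r1 n').2.1.length, (st φ₁ ψ₂ p r0 r1 n').2.2.1) = 0 ∧
        ¬ Sc φ₁ ψ₂ p P (st φ₁ ψ₂ p r0 r1 n').1 (st φ₁ ψ₂ p r0 r1 n').2.1.length (st φ₁ ψ₂ p r0 r1 n').2.2.1 (st φ₁ ψ₂ p r0 r1 n').2.2.2) := by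
  by_cases h : r1 ((st φ₁ ψ₂ p r0 r1 n).1, (st φ₁ ψ₂ p r0 r1 n).2.1.length, (st φ₁ ψ₂ p r0 r1 n).2.2.1) = 0
  swap
  · exact ⟨n, le_refl _, ⟨rfl, rfl, rfl⟩, fun h' => h h'.1⟩
  have h1 : ¬ ∀ t, valid (st φ₁ ψ₂ p r0 r1 n).1 (cs t) = true →
      dd φ₁ ψ₂ (pre p (cs t).length) (cs t) (ck t) (st φ₁ ψ₂ p r0 r1 n).2.1.length (st φ₁ ψ₂ p r0 r1 n).2.2.1 = true →
      ∃ j < (cs t).length, (cs t).getD j 0 = 0 ∧ P j := by
    intro h'
    exact (O.H1 _ _ _).2 h' h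
  push Not at h1
  obtain ⟨t, ht1, ht2, ht3⟩ := h1
  have hS : Sc φ₁ ψ₂ p P (st φ₁ ψ₂ p r0 r1 n).1 (st φ₁ ψ₂ p r0 r1 n).2.1.length (st φ₁ ψ₂ p r0 r1 n).2.2.1 t := ⟨ht1, ht2, ht3⟩
  -- induction on `t - t_n`
  have key : ∀ d n', n ≤ n' → ((st φ₁ ψ₂ p r0 r1 n').1 = (st φ₁ ψ₂ p r0 r1 n).1 ∧ (st φ₁ ψ₂ p r0 r1 n').2.1 = (st φ₁ ψ₂ p r0 r1 n).2.1 ∧
      (st φ₁ ψ₂ p r0 r1 n').2.2.1 = (st φ₁ ψ₂ p r0 r1 n).2.2.1) → t = (st φ₁ ψ₂ p r0 r1 n').2.2.2 + d → ∃ n'' ≥ n, ((st φ₁ ψ₂ p r0 r1 n'').1 = (st φ₁ ψ₂ p r0 r1 n).1 ∧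
      (st φ₁ ψ₂ p r0 r1 n'').2.1 = (st φ₁ ψ₂ p r0 r1 n).2.1 ∧ (st φ₁ ψ₂ p r0 r1 n'').2.2.1 = (st φ₁ ψ₂ p r0 r1 n).2.2.1) ∧
      ¬ (r1 ((st φ₁ ψ₂ p r0 r1 n'').1, (st φ₁ ψ₂ p r0 r1 n'').2.1.length, (st φ₁ ψ₂ p r0 r1 n'').2.2.1) = 0 ∧
        ¬ Sc φ₁ ψ₂ p P (st φ₁ ψ₂ p r0 r1 n'').1 (st φ₁ ψ₂ p r0 r1 n'').2.1.length (st φ₁ ψ₂ p r0 r1 n'').2.2.1 (st φ₁ ψ₂ p r0 r1 n'').2.2.2) := by
    intro d
    induction d with
    | zero =>
      intro n' hn' he ht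
      refine ⟨n', hn', he, fun h' => h'.2 ?_⟩
      rw [he.1, he.2.1, he.2.2, ← Nat.add_zero (st φ₁ ψ₂ p r0 r1 n').2.2.2, ← ht]
      exact hS
    | succ d ih =>
      intro n' hn' he ht
      by_cases h2 : Sc φ₁ ψ₂ p P (st φ₁ ψ₂ p r0 r1 n').1 (st φ₁ ψ₂ p r0 r1 n').2.1.length (st φ₁ ψ₂ p r0 r1 n').2.2.1 (st φ₁ ψ₂ p r0 r1 n').2.2.2
      · exact ⟨n', hn', he, fun h' => h'.2 h2⟩
      · have h0 : r1 ((st φ₁ ψ₂ p r0 r1 n').1, (st φ₁ ψ₂ p r0 r1 n').2.1.length, (st φ₁ ψ₂ p r0 r1 n').2.2.1) = 0 := by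
          rw [he.1, he.2.1, he.2.2]; exact h
        have hs := istep_D (φ₁ := φ₁) (ψ₂ := ψ₂) (p := p) (r0 := r0) O.H0 h0 h2
        rw [← st_succ] at hs
        refine ih (n' + 1) (by omega) ?_ ?_
        · rw [hs]; exact he
        · rw [hs]; simp only []; omega
  have hle : (st φ₁ ψ₂ p r0 r1 n).2.2.2 ≤ t := by
    by_contra hlt
    exact st_fail O n t (by omega) hS
  exact key (t - (st φ₁ ψ₂ p r0 r1 n).2.2.2) n (le_refl _) ⟨rfl, rfl, rfl⟩ (by omega)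

/-- a real step extends the condition -/
theorem real_grow (O : Orc φ₁ ψ₂ p P r0 r1) {n : ℕ}
    (h : ¬ (r1 ((st φ₁ ψ₂ p r0 r1 n).1, (st φ₁ ψ₂ p r0 r1 n).2.1.length, (st φ₁ ψ₂ p r0 r1 n).2.2.1) = 0 ∧
        ¬ Sc φ₁ ψ₂ p P (st φ₁ ψ₂ p r0 r1 n).1 (st φ₁ ψ₂ p r0 r1 n).2.1.length (st φ₁ ψ₂ p r0 r1 n).2.2.1 (st φ₁ ψ₂ p r0 r1 n).2.2.2)) :
    (st φ₁ ψ₂ p r0 r1 n).1.length < (st φ₁ ψ₂ p r0 r1 (n+1)).1.length := by
  rw [st_succ]
  by_cases h0 : r1 ((st φ₁ ψ₂ p r0 r1 n).1, (st φ₁ ψ₂ p r0 r1 n).2.1.length, (st φ₁ ψ₂ p r0 r1 n).2.2.1) = 0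
  · have h2 : Sc φ₁ ψ₂ p P (st φ₁ ψ₂ p r0 r1 n).1 (st φ₁ ψ₂ p r0 r1 n).2.1.length (st φ₁ ψ₂ p r0 r1 n).2.2.1 (st φ₁ ψ₂ p r0 r1 n).2.2.2 := by
      by_contra h2; exact h ⟨h0, h2⟩
    rw [istep_C O.H0 h0 h2]
    have := nw_props O.H0 O.HP (st_inv O n) h2.1 h2.2.2
      ((st φ₁ ψ₂ p r0 r1 n).1.length + (cs (st φ₁ ψ₂ p r0 r1 n).2.2.2).length + 1) (by omega)
    have hl := (valid_iff.1 h2.1).1
    have h3 := this.2.2.1
    simp only []
    omega
  · by_cases h2 : Nat.pair (st φ₁ ψ₂ p r0 r1 n).2.2.1 (st φ₁ ψ₂ p r0 r1 n).2.1.length <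
        (th φ₁ ψ₂ (pre p (st φ₁ ψ₂ p r0 r1 n).1.length) (sg (st φ₁ ψ₂ p r0 r1 n).1)).length
    · rw [istep_A h0 h2]; simp
    · rw [istep_B h0 h2]; simp

theorem grow (O : Orc φ₁ ψ₂ p P r0 r1) (n : ℕ) : ∃ n' ≥ n, (st φ₁ ψ₂ p r0 r1 n).1.length < (st φ₁ ψ₂ p r0 r1 n').1.length := by
  obtain ⟨n', h1, h2, h3⟩ := exists_real O n
  refine ⟨n' + 1, by omega, ?_⟩
  have := real_grow O h3
  rw [← h2.1]
  exact this

theorem len_unbounded (O : Orc φ₁ ψ₂ p P r0 r1) (K : ℕ) : ∃ n, ∀ n' ≥ n, K < (st φ₁ ψ₂ p r0 r1 n').1.length := by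
  induction K with
  | zero =>
    obtain ⟨n', h1, h2⟩ := grow O 0
    refine ⟨n', fun n'' h => ?_⟩
    have := (st_ext O h).1.length_le
    omega
  | succ K ih =>
    obtain ⟨n, hn⟩ := ih
    obtain ⟨n', h1, h2⟩ := grow O n
    refine ⟨n', fun n'' h => ?_⟩
    have := (st_ext O h).1.length_le
    have := hn n (le_refl _)
    omega

/-- the limit of the conditions -/
theorem exists_limit (O : Orc φ₁ ψ₂ p P r0 r1) : ∃ c : ℕ → ℕ, ∀ n, (st φ₁ ψ₂ p r0 r1 n).1 = pre c (st φ₁ ψ₂ p r0 r1 n).1.length := by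
  have h : ∀ j, ∃ n, j < (st φ₁ ψ₂ p r0 r1 n).1.length := fun j => by
    obtain ⟨n, hn⟩ := len_unbounded O j
    exact ⟨n, hn n (le_refl _)⟩
  choose N hN using h
  refine ⟨fun j => (st φ₁ ψ₂ p r0 r1 (N j)).1.getD j 0, fun n => ?_⟩
  apply ext_getD
  · rw [pre_length]
  · intro j hj
    rw [pre_getD _ _ _ hj]
    rcases le_total n (N j) with h | h
    · exact (getD_prefix (st_ext O h).1 hj).symm
    · exact getD_prefix (st_ext O h).1 (hN j)

end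

end R577.PKL
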