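import Pool.Agent.R577.PK.Mach

/-! The output of the construction. -/

open Filter Topology

namespace R577.PKL

section
variable {φ₁ ψ₁ ψ₂ : List ℕ → List ℕ} {p : ℕ → ℕ} {P : ℕ → Prop} {r0 : ℕ → ℕ}
  {r1 : List ℕ × ℕ × ℕ → ℕ} {c : ℕ → ℕ}

/-- characteristic function of the limit tree -/
def qs (c : ℕ → ℕ) (j : ℕ) : ℕ := if c j = 0 then 0 else 1

theorem sg_st (hc : ∀ n, (st φ₁ ψ₂ p r0 r1 n).1 = pre c (st φ₁ ψ₂ p r0 r1 n).1.length) (n : ℕ) :
    sg (st φ₁ ψ₂ p r0 r1 n).1 = pre (qs c) (st φ₁ ψ₂ p r0 r1 n).1.length := by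
  apply ext_getD
  · rw [sg_length, pre_length]
  · intro j hj
    rw [sg_length] at hj
    rw [sg_getD _ _ hj, pre_getD _ _ _ hj]
    conv_lhs => rw [hc n]
    rw [pre_getD _ _ _ hj]
    rfl

theorem c_one_iff (O : Orc φ₁ ψ₂ p P r0 r1) (hc : ∀ n, (st φ₁ ψ₂ p r0 r1 n).1 = pre c (st φ₁ ψ₂ p r0 r1 n).1.length) (j : ℕ) :
    c j = 1 ↔ P j := by
  obtain ⟨n, hn⟩ := len_unbounded O j
  have h1 := hn n (le_refl _)
  have h2 := (st_inv O n j h1).1
  rw [hc n, pre_getD _ _ _ h1] at h2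
  exact h2

theorem cpar_ne (O : Orc φ₁ ψ₂ p P r0 r1) (hc : ∀ n, (st φ₁ ψ₂ p r0 r1 n).1 = pre c (st φ₁ ψ₂ p r0 r1 n).1.length) {j : ℕ}
    (h0 : c j ≠ 0) (hj : j ≠ 0) : c (par j) ≠ 0 := by
  obtain ⟨n, hn⟩ := len_unbounded O j
  have h1 := hn n (le_refl _)
  have h2 := (st_inv O n j h1).2
  rw [hc n, pre_getD _ _ _ h1, pre_getD _ _ _ (by have := par_lt hj; omega)] at h2
  exact h2 h0 hj

theorem c_new (O : Orc φ₁ ψ₂ p P r0 r1) (hc : ∀ n, (st φ₁ ψ₂ p r0 r1 n).1 = pre c (st φ₁ ψ₂ p r0 r1 n).1.length) {n j : ℕ}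
    (h1 : (st φ₁ ψ₂ p r0 r1 n).1.length ≤ j) (h0 : c j ≠ 0) (hj : j ≠ 0) (h2 : par j < (st φ₁ ψ₂ p r0 r1 n).1.length) :
    c (par j) = 1 := by
  obtain ⟨n', hn'⟩ := len_unbounded O (j + n)
  have h3 := hn' (n' + n) (by omega)
  have h4 := (st_ext O (show n ≤ n' + n by omega)).2 j h1 (by omega)
  rw [hc (n' + n), pre_getD _ _ _ (by omega)] at h4
  have h5 := h4 h0 hj h2
  rw [hc n, pre_getD _ _ _ h2] at h5
  exact h5

theorem num_pre_lt (x : ℕ → ℕ) (k : ℕ) : num (pre x k) < num (pre x (k + 1)) := by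
  rw [pre_succ]; exact num_lt_snoc _ _

theorem par_num_pre (x : ℕ → ℕ) (k : ℕ) : par (num (pre x (k + 1))) = num (pre x k) := by
  rw [pre_succ, par_num_snoc]

theorem paths (O : Orc φ₁ ψ₂ p P r0 r1) (hc : ∀ n, (st φ₁ ψ₂ p r0 r1 n).1 = pre c (st φ₁ ψ₂ p r0 r1 n).1.length) {x : ℕ → ℕ}
    (hx : ∀ k, c (num (pre x k)) ≠ 0) (k : ℕ) : P (num (pre x k)) := by
  by_contra hP
  have hmono : StrictMono fun k => num (pre x k) := strictMono_nat_of_lt_succ (num_pre_lt x)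
  have hdown : ∀ k' ≥ k, ¬ P (num (pre x k')) := by
    intro k' hk'
    induction k', hk' using Nat.le_induction with
    | base => exact hP
    | succ k' _ ih =>
      intro h
      have := O.HP _ h
      rw [par_num_pre] at this
      exact ih this
  obtain ⟨n, hn⟩ := len_unbounded O (num (pre x k))
  have h1 := hn n (le_refl _)
  have hex : ∃ k', (st φ₁ ψ₂ p r0 r1 n).1.length ≤ num (pre x k') :=
    ⟨(st φ₁ ψ₂ p r0 r1 n).1.length, hmono.le_apply⟩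
  classical
  have hfind := Nat.find_spec hex
  set k1 := Nat.find hex with hk1
  have hk1k : k < k1 := by
    by_contra h
    have := hmono.monotone (show k1 ≤ k by omega)
    omega
  obtain ⟨k2, hk2⟩ : ∃ k2, k1 = k2 + 1 := ⟨k1 - 1, by omega⟩
  have hmin : num (pre x k2) < (st φ₁ ψ₂ p r0 r1 n).1.length := by
    have := Nat.find_min hex (show k2 < Nat.find hex by omega)
    omega
  rw [hk2] at hfind
  have h3 := c_new O hc hfind (hx _) (by have := num_pre_lt x k2; omega)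
    (by rw [par_num_pre]; exact hmin)
  rw [par_num_pre, c_one_iff O hc] at h3
  exact hdown k2 (by omega) h3

/-- what is known about the sequence computed from the limit tree -/
structure Lim (φ₁ ψ₂ : List ℕ → List ℕ) (p : ℕ → ℕ) (c rs l : ℕ → ℕ) : Prop where
  hth : ∀ n, th φ₁ ψ₂ (pre p n) (pre (qs c) n) =
    pre rs (th φ₁ ψ₂ (pre p n) (pre (qs c) n)).length
  hlen : Tendsto (fun n => (th φ₁ ψ₂ (pre p n) (pre (qs c) n)).length) atTop atTop
  hl : ∀ i, ∃ K, ∀ k ≥ K, rs (Nat.pair k i) = l i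

variable {rs l : ℕ → ℕ}

theorem no_change (O : Orc φ₁ ψ₂ p P r0 r1) (hc : ∀ n, (st φ₁ ψ₂ p r0 r1 n).1 = pre c (st φ₁ ψ₂ p r0 r1 n).1.length)
    (H : Lim φ₁ ψ₂ p c rs l) {n i m : ℕ} (h : r1 ((st φ₁ ψ₂ p r0 r1 n).1, i, m) ≠ 0) (k : ℕ) (hk : m < k) :
    rs (Nat.pair k i) = rs (Nat.pair m i) := by
  by_contra hne
  obtain ⟨X, hX⟩ := (H.hlen.eventually_gt_atTop (Nat.pair k i + Nat.pair m i)).exists_forall_of_atTop
  obtain ⟨n', hn'⟩ := len_unbounded O X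
  have h1 := hn' (n' + n) (by omega)
  have h2 := hX _ h1.le
  set n'' := n' + n with hn''
  set s := sg (st φ₁ ψ₂ p r0 r1 n'').1 with hs
  have hsl : s.length = (st φ₁ ψ₂ p r0 r1 n'').1.length := sg_length _
  have hse : s = pre (qs c) (st φ₁ ψ₂ p r0 r1 n'').1.length := sg_st hc n''
  set t := Encodable.encode (s, k) with ht
  have hcs : cs t = s := by rw [cs, ht, dec_encode]
  have hck : ck t = k := by rw [ck, ht, dec_encode]
  obtain ⟨j, hj1, hj2, hj3⟩ := (O.H1 _ _ _).1 h t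
    (by rw [hcs]; exact valid_of_ext (st_ext O (by omega)) (st_inv O n''))
    (by
      rw [hcs, hck, hsl]
      unfold dd
      rw [hse, H.hth]
      simp only [Bool.and_eq_true, decide_eq_true_eq, Bool.not_eq_true', beq_eq_false_iff_ne, ne_eq,
        pre_length]
      refine ⟨hk, by omega, by omega, ?_⟩
      rw [pre_getD _ _ _ (by omega), pre_getD _ _ _ (by omega)]
      exact hne)
  rw [hcs] at hj1 hj2
  rw [hsl] at hj1
  rw [hs, sg_getD _ _ hj1] at hj2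
  have h4 := ((st_inv O n'') j hj1).1.2 hj3
  rw [h4] at hj2
  simp at hj2

theorem L_entries (O : Orc φ₁ ψ₂ p P r0 r1) (hc : ∀ n, (st φ₁ ψ₂ p r0 r1 n).1 = pre c (st φ₁ ψ₂ p r0 r1 n).1.length)
    (H : Lim φ₁ ψ₂ p c rs l) (n : ℕ) : (st φ₁ ψ₂ p r0 r1 n).2.1 = pre l (st φ₁ ψ₂ p r0 r1 n).2.1.length := by
  induction n with
  | zero => simp [st, pre]
  | succ n ih =>
    rw [st_succ]
    by_cases h : r1 ((st φ₁ ψ₂ p r0 r1 n).1, (st φ₁ ψ₂ p r0 r1 n).2.1.length, (st φ₁ ψ₂ p r0 r1 n).2.2.1) = 0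
    · by_cases h2 : Sc φ₁ ψ₂ p P (st φ₁ ψ₂ p r0 r1 n).1 (st φ₁ ψ₂ p r0 r1 n).2.1.length (st φ₁ ψ₂ p r0 r1 n).2.2.1 (st φ₁ ψ₂ p r0 r1 n).2.2.2
      · rw [istep_C O.H0 h h2]; exact ih
      · rw [istep_D O.H0 h h2]; exact ih
    · by_cases h2 : Nat.pair (st φ₁ ψ₂ p r0 r1 n).2.2.1 (st φ₁ ψ₂ p r0 r1 n).2.1.length <
          (th φ₁ ψ₂ (pre p (st φ₁ ψ₂ p r0 r1 n).1.length) (sg (st φ₁ ψ₂ p r0 r1 n).1)).length
      · rw [istep_A h h2]
        simp only [List.length_append, List.length_cons, List.length_nil]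
        rw [pre_succ, ← ih]
        congr 2
        rw [sg_st hc n] at h2 ⊢
        rw [H.hth, pre_getD _ _ _ h2]
        obtain ⟨K, hK⟩ := H.hl (st φ₁ ψ₂ p r0 r1 n).2.1.length
        have h3 := no_change O hc H h (K + (st φ₁ ψ₂ p r0 r1 n).2.2.1 + 1) (by omega)
        rw [← h3]
        exact hK _ (by omega)
      · rw [istep_B h h2]; exact ih

theorem L_len_mono (O : Orc φ₁ ψ₂ p P r0 r1) {m n : ℕ} (h : m ≤ n) :
    (st φ₁ ψ₂ p r0 r1 m).2.1.length ≤ (st φ₁ ψ₂ p r0 r1 n).2.1.length := by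
  induction n, h using Nat.le_induction with
  | base => exact le_refl _
  | succ n hmn ih =>
    refine ih.trans ?_
    rw [st_succ]
    by_cases h : r1 ((st φ₁ ψ₂ p r0 r1 n).1, (st φ₁ ψ₂ p r0 r1 n).2.1.length, (st φ₁ ψ₂ p r0 r1 n).2.2.1) = 0
    · by_cases h2 : Sc φ₁ ψ₂ p P (st φ₁ ψ₂ p r0 r1 n).1 (st φ₁ ψ₂ p r0 r1 n).2.1.length (st φ₁ ψ₂ p r0 r1 n).2.2.1 (st φ₁ ψ₂ p r0 r1 n).2.2.2
      · rw [istep_C O.H0 h h2]
      · rw [istep_D O.H0 h h2]
    · by_cases h2 : Nat.pair (st φ₁ ψ₂ p r0 r1 n).2.2.1 (st φ₁ ψ₂ p r0 r1 n).2.1.length <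
          (th φ₁ ψ₂ (pre p (st φ₁ ψ₂ p r0 r1 n).1.length) (sg (st φ₁ ψ₂ p r0 r1 n).1)).length
      · rw [istep_A h h2]; simp
      · rw [istep_B h h2]

theorem L_unbounded (O : Orc φ₁ ψ₂ p P r0 r1) (hc : ∀ n, (st φ₁ ψ₂ p r0 r1 n).1 = pre c (st φ₁ ψ₂ p r0 r1 n).1.length)
    (H : Lim φ₁ ψ₂ p c rs l) (i : ℕ) : ∃ n, i ≤ (st φ₁ ψ₂ p r0 r1 n).2.1.length := by
  induction i with
  | zero => exact ⟨0, Nat.zero_le _⟩
  | succ i ih =>
    obtain ⟨n0, hn0⟩ := ih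
    by_contra hcon
    push Not at hcon
    have hLi : ∀ n ≥ n0, (st φ₁ ψ₂ p r0 r1 n).2.1.length = i := by
      intro n hn
      have h1 := hcon n
      have h2 := L_len_mono O hn
      omega
    -- the possible steps from now on
    have hA : ∀ n ≥ n0, ¬ (r1 ((st φ₁ ψ₂ p r0 r1 n).1, (st φ₁ ψ₂ p r0 r1 n).2.1.length, (st φ₁ ψ₂ p r0 r1 n).2.2.1) ≠ 0 ∧
        Nat.pair (st φ₁ ψ₂ p r0 r1 n).2.2.1 (st φ₁ ψ₂ p r0 r1 n).2.1.length <
          (th φ₁ ψ₂ (pre p (st φ₁ ψ₂ p r0 r1 n).1.length) (sg (st φ₁ ψ₂ p r0 r1 n).1)).length) := by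
      rintro n hn ⟨h1, h2⟩
      have h3 := istep_A (r0 := r0) h1 h2
      have h4 := hLi (n + 1) (by omega)
      rw [st_succ, h3] at h4
      simp only [List.length_append, List.length_cons, List.length_nil] at h4
      have := hLi n hn
      omega
    have hm : ∀ n ≥ n0, (st φ₁ ψ₂ p r0 r1 (n+1)).2.2.1 = (st φ₁ ψ₂ p r0 r1 n).2.2.1 ∨ ((st φ₁ ψ₂ p r0 r1 (n+1)).2.2.1 = (st φ₁ ψ₂ p r0 r1 n).2.2.1 + 1 ∧
        r1 ((st φ₁ ψ₂ p r0 r1 n).1, (st φ₁ ψ₂ p r0 r1 n).2.1.length, (st φ₁ ψ₂ p r0 r1 n).2.2.1) = 0 ∧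
        Sc φ₁ ψ₂ p P (st φ₁ ψ₂ p r0 r1 n).1 (st φ₁ ψ₂ p r0 r1 n).2.1.length (st φ₁ ψ₂ p r0 r1 n).2.2.1 (st φ₁ ψ₂ p r0 r1 n).2.2.2) := by
      intro n hn
      rw [st_succ]
      by_cases h : r1 ((st φ₁ ψ₂ p r0 r1 n).1, (st φ₁ ψ₂ p r0 r1 n).2.1.length, (st φ₁ ψ₂ p r0 r1 n).2.2.1) = 0
      · by_cases h2 : Sc φ₁ ψ₂ p P (st φ₁ ψ₂ p r0 r1 n).1 (st φ₁ ψ₂ p r0 r1 n).2.1.length (st φ₁ ψ₂ p r0 r1 n).2.2.1 (st φ₁ ψ₂ p r0 r1 n).2.2.2
        · rw [istep_C O.H0 h h2]; exact Or.inr ⟨rfl, h, h2⟩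
        · rw [istep_D O.H0 h h2]; exact Or.inl rfl
      · by_cases h2 : Nat.pair (st φ₁ ψ₂ p r0 r1 n).2.2.1 (st φ₁ ψ₂ p r0 r1 n).2.1.length <
            (th φ₁ ψ₂ (pre p (st φ₁ ψ₂ p r0 r1 n).1.length) (sg (st φ₁ ψ₂ p r0 r1 n).1)).length
        · exact absurd ⟨h, h2⟩ (hA n hn)
        · rw [istep_B h h2]; exact Or.inl rfl
    have hmmono : ∀ m n, n0 ≤ m → m ≤ n → (st φ₁ ψ₂ p r0 r1 m).2.2.1 ≤ (st φ₁ ψ₂ p r0 r1 n).2.2.1 := by
      intro m n hm0 hmn
      induction n, hmn using Nat.le_induction with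
      | base => exact le_refl _
      | succ n hmn ih =>
        rcases hm n (by omega) with h | ⟨h, -⟩ <;> omega
    -- `m` is unbounded
    have hunb : ∀ M, ∃ n ≥ n0, M ≤ (st φ₁ ψ₂ p r0 r1 n).2.2.1 := by
      intro M
      induction M with
      | zero => exact ⟨n0, le_refl _, Nat.zero_le _⟩
      | succ M ihM =>
        obtain ⟨n1, hn1, hM1⟩ := ihM
        by_contra hcon2
        push Not at hcon2
        have hconst : ∀ n ≥ n1, (st φ₁ ψ₂ p r0 r1 n).2.2.1 = M := by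
          intro n hn
          have h1 := hcon2 n (by omega)
          have h2 := hmmono n1 n hn1 hn
          omega
        obtain ⟨X, hX⟩ := (H.hlen.eventually_gt_atTop (Nat.pair M i)).exists_forall_of_atTop
        obtain ⟨n2, hn2⟩ := len_unbounded O X
        obtain ⟨n3, h31, h32, h33⟩ := exists_real O (n1 + n2)
        have h34 := hn2 n3 (by omega)
        have h35 := hX _ h34.le
        rcases hm n3 (by omega) with h | ⟨h, -⟩
        · -- the step is neither A nor C nor D, so B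
          by_cases h0 : r1 ((st φ₁ ψ₂ p r0 r1 n3).1, (st φ₁ ψ₂ p r0 r1 n3).2.1.length, (st φ₁ ψ₂ p r0 r1 n3).2.2.1) = 0
          · have hSc : Sc φ₁ ψ₂ p P (st φ₁ ψ₂ p r0 r1 n3).1 (st φ₁ ψ₂ p r0 r1 n3).2.1.length (st φ₁ ψ₂ p r0 r1 n3).2.2.1 (st φ₁ ψ₂ p r0 r1 n3).2.2.2 := by
              by_contra h'; exact h33 ⟨h0, h'⟩
            have := istep_C (φ₁ := φ₁) (ψ₂ := ψ₂) (p := p) O.H0 h0 hSc
            rw [← st_succ] at this
            rw [this] at h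
            simp only [] at h
            omega
          · refine hA n3 (by omega) ⟨h0, ?_⟩
            rw [sg_st hc n3, hLi n3 (by omega), hconst n3 (by omega)]
            exact h35
        · have h36 := hconst n3 (by omega)
          have h37 := hconst (n3 + 1) (by omega)
          omega
    obtain ⟨K, hK⟩ := H.hl i
    have hex : ∃ n, n0 ≤ n ∧ K + (st φ₁ ψ₂ p r0 r1 n0).2.2.1 + 1 ≤ (st φ₁ ψ₂ p r0 r1 n).2.2.1 := by
      obtain ⟨n, h1, h2⟩ := hunb (K + (st φ₁ ψ₂ p r0 r1 n0).2.2.1 + 1)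
      exact ⟨n, h1, h2⟩
    classical
    have hfs := Nat.find_spec hex
    set n1 := Nat.find hex with hn1
    have hne : n1 ≠ n0 := by
      intro h
      have := hfs.2
      rw [h] at this
      omega
    obtain ⟨n2, hn2⟩ : ∃ n2, n1 = n2 + 1 := ⟨n1 - 1, by have := hfs.1; omega⟩
    have hn20 : n0 ≤ n2 := by have := hfs.1; omega
    have hmin := Nat.find_min hex (show n2 < Nat.find hex by omega)
    rw [hn2] at hfs
    have hS2 : (st φ₁ ψ₂ p r0 r1 n2).2.2.1 < K + (st φ₁ ψ₂ p r0 r1 n0).2.2.1 + 1 := by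
      by_contra h
      exact hmin ⟨hn20, by omega⟩
    rcases hm n2 hn20 with h | ⟨h, h0, hSc⟩
    · have := hfs.2; omega
    · have hmK : K ≤ (st φ₁ ψ₂ p r0 r1 n2).2.2.1 := by have := hfs.2; omega
      have hnw := nw_props O.H0 O.HP (st_inv O n2) hSc.1 hSc.2.2
        ((st φ₁ ψ₂ p r0 r1 n2).1.length + (cs (st φ₁ ψ₂ p r0 r1 n2).2.2.2).length + 1) (by omega)
      have hstep := istep_C (φ₁ := φ₁) (ψ₂ := ψ₂) (p := p) O.H0 h0 hSc
      rw [← st_succ] at hstep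
      have hs : cs (st φ₁ ψ₂ p r0 r1 n2).2.2.2 = pre (qs c) (cs (st φ₁ ψ₂ p r0 r1 n2).2.2.2).length := by
        apply ext_getD
        · rw [pre_length]
        · intro j hj
          rw [pre_getD _ _ _ hj, ← hnw.2.2.2 j hj]
          have h5 := hc (n2 + 1)
          rw [hstep] at h5
          simp only [] at h5
          rw [h5, pre_getD _ _ _ (by rw [hnw.2.2.1]; omega)]
          rfl
      have hd := hSc.2.1
      rw [hLi n2 hn20] at hd
      rw [hs] at hd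
      rw [pre_length] at hd
      unfold dd at hd
      rw [H.hth] at hd
      simp only [Bool.and_eq_true, decide_eq_true_eq, Bool.not_eq_true', beq_eq_false_iff_ne, ne_eq,
        pre_length] at hd
      obtain ⟨h6, h7, h8, h9⟩ := hd
      rw [pre_getD _ _ _ h7, pre_getD _ _ _ h8] at h9
      apply h9
      rw [hK _ (by omega), hK _ hmK]

/-! ### finite oracles -/

variable {r : ℕ → ℕ}

theorem nd_mono {a b : ℕ} (h : a ≤ b) : nd a ≤ nd b := by
  unfold nd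
  rcases Nat.lt_or_eq_of_le h with h | rfl
  · exact Nat.succ_le_succ (Nat.pair_lt_pair_left 0 h).le
  · exact le_refl _

theorem e0_mono {a b : ℕ} (h : a ≤ b) : e0 a ≤ e0 b := by
  unfold e0
  rcases Nat.lt_or_eq_of_le h with h | rfl
  · exact (Nat.pair_lt_pair_right 0 h).le
  · exact le_refl _

theorem join_even (p q : ℕ → ℕ) (i : ℕ) : join p q (2 * i) = p i := by
  unfold join
  rw [if_pos (by omega)]
  congr 1; omega

theorem join_odd (p q : ℕ → ℕ) (i : ℕ) : join p q (2 * i + 1) = q i := by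
  unfold join
  rw [if_neg (by omega)]
  congr 1; omega

theorem stepW_eq {k : ℕ} {S : St} (h : need S < k) :
    stepW φ₁ ψ₂ (pre (join p r) k) S =
      istep φ₁ ψ₂ p (fun j => r (nd (e0 j))) (fun x => r (nd (e1 x))) S := by
  unfold need at h
  unfold stepW
  rw [pre_length, decide_eq_true (by unfold need; exact h), cond_true]
  unfold istep
  congr 1
  · unfold pre
    apply List.map_congr_left
    intro i hi
    rw [List.mem_range] at hi
    have := pre_getD (join p r) k (2 * i) (by omega)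
    unfold pre at this
    rw [this, join_even]
  · apply List.map_congr_left
    intro j hj
    rw [List.mem_range] at hj
    have h1 := nd_mono (e0_mono (show j ≤ S.1.length + (cs S.2.2.2).length by omega))
    rw [pre_getD _ _ _ (by omega), join_odd]
  · rw [pre_getD _ _ _ (by omega), join_odd]

theorem stepW_stuck {k : ℕ} {S : St} (h : ¬ need S < k) :
    stepW φ₁ ψ₂ (pre (join p r) k) S = S := by
  unfold stepW
  rw [pre_length, decide_eq_false h, cond_false]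

section
variable (φ₁ ψ₂ p r)

/-- the states for the oracle `r` -/
abbrev sr (n : ℕ) : St := st φ₁ ψ₂ p (fun j => r (nd (e0 j))) (fun x => r (nd (e1 x))) n

end

theorem run_aux (k N : ℕ) : ∃ n, (∀ M, (∀ i < M, need (sr φ₁ ψ₂ p r i) < k) → min N M ≤ n) ∧
    (stepW φ₁ ψ₂ (pre (join p r) k))^[N] ([], [], 0, 0) = sr φ₁ ψ₂ p r n := by
  induction N with
  | zero => exact ⟨0, fun M _ => by omega, rfl⟩
  | succ N ih =>
    obtain ⟨n, h1, h2⟩ := ih
    rw [Function.iterate_succ', Function.comp, h2]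
    by_cases h : need (sr φ₁ ψ₂ p r n) < k
    · refine ⟨n + 1, fun M hM => ?_, ?_⟩
      · have := h1 M hM
        omega
      · rw [stepW_eq h]
        exact (st_succ n).symm
    · refine ⟨n, fun M hM => ?_, stepW_stuck h⟩
      have h3 := h1 M hM
      by_cases hnM : n < M
      · exact absurd (hM n hnM) h
      · omega

theorem run_spec (k : ℕ) : ∃ n, (∀ M, (∀ i < M, need (sr φ₁ ψ₂ p r i) < k) → min k M ≤ n) ∧
    run φ₁ ψ₂ (pre (join p r) k) = sr φ₁ ψ₂ p r n := by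
  have := run_aux (φ₁ := φ₁) (ψ₂ := ψ₂) (p := p) (r := r) k k
  unfold run
  rw [pre_length]
  exact this

theorem run_large (N : ℕ) : ∃ K, ∀ k ≥ K, ∃ n ≥ N, run φ₁ ψ₂ (pre (join p r) k) = sr φ₁ ψ₂ p r n := by
  have hb : ∃ B, ∀ i < N, need (sr φ₁ ψ₂ p r i) < B := by
    induction N with
    | zero => exact ⟨0, fun i hi => absurd hi (Nat.not_lt_zero _)⟩
    | succ N ih =>
      obtain ⟨B, hB⟩ := ih
      refine ⟨B + need (sr φ₁ ψ₂ p r N) + 1, fun i hi => ?_⟩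
      rcases Nat.lt_succ_iff_lt_or_eq.1 hi with h | rfl
      · have := hB i h; omega
      · omega
  obtain ⟨B, hB⟩ := hb
  refine ⟨B + N, fun k hk => ?_⟩
  obtain ⟨n, h1, h2⟩ := run_spec (φ₁ := φ₁) (ψ₂ := ψ₂) (p := p) (r := r) k
  have := h1 N (fun i hi => by have := hB i hi; omega)
  exact ⟨n, by omega, h2⟩

theorem evens_pre (k : ℕ) : evens (pre (join p r) k) = pre p (k / 2) := by
  unfold evens
  rw [pre_length]
  unfold pre
  apply List.map_congr_left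
  intro i hi
  rw [List.mem_range] at hi
  have := pre_getD (join p r) k (2 * i) (by omega)
  unfold pre at this
  rw [this, join_even]

theorem computes_bwd (O : Orc φ₁ ψ₂ p P (fun j => r (nd (e0 j))) (fun x => r (nd (e1 x))))
    (hc : ∀ n, (sr φ₁ ψ₂ p r n).1 = pre c (sr φ₁ ψ₂ p r n).1.length)
    (H : Lim φ₁ ψ₂ p c rs l) {u out : ℕ → ℕ} (h2 : Computes ψ₂ (join p (qs c)) u)
    (h1 : Computes ψ₁ (join u l) out) : Computes (bwd φ₁ ψ₁ ψ₂) (join p r) out := by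
  have key : ∀ k n, run φ₁ ψ₂ (pre (join p r) k) = sr φ₁ ψ₂ p r n →
      bwd φ₁ ψ₁ ψ₂ (pre (join p r) k) = ψ₁ (pre (join u l) (2 * min
        (ψ₂ (pre (join p (qs c)) (2 * min (k / 2) (sr φ₁ ψ₂ p r n).1.length))).length
        (sr φ₁ ψ₂ p r n).2.1.length)) := by
    intro k n hn
    unfold bwd
    rw [evens_pre, hn, sg_st hc n, jw_pre, h2.1, L_entries O hc H n, jw_pre]
    simp only [pre_length]
  constructor
  · intro k
    obtain ⟨n, -, hn⟩ := run_spec (φ₁ := φ₁) (ψ₂ := ψ₂) (p := p) (r := r) k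
    rw [key k n hn]
    exact h1.1 _
  · rw [tendsto_atTop]
    intro M
    rw [eventually_atTop]
    obtain ⟨X, hX⟩ := (h1.2.eventually_ge_atTop M).exists_forall_of_atTop
    obtain ⟨Y, hY⟩ := (h2.2.eventually_ge_atTop X).exists_forall_of_atTop
    obtain ⟨n1, hn1⟩ := len_unbounded O Y
    obtain ⟨n2, hn2⟩ := L_unbounded O hc H X
    obtain ⟨K, hK⟩ := run_large (φ₁ := φ₁) (ψ₂ := ψ₂) (p := p) (r := r) (n1 + n2)
    refine ⟨K + 2 * Y, fun k hk => ?_⟩
    obtain ⟨n, hn, hrun⟩ := hK k (by omega)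
    rw [key k n hrun]
    apply hX
    have h3 : Y < (sr φ₁ ψ₂ p r n).1.length := hn1 n (by omega)
    have h4 : X ≤ (sr φ₁ ψ₂ p r n).2.1.length := hn2.trans (L_len_mono O (by omega))
    have h5 := hY (2 * min (k / 2) (sr φ₁ ψ₂ p r n).1.length) (by omega)
    omega

end

end R577.PKL
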