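import Pool.Agent.R577.PK.Sem
import Pool.Agent.R577.PK.Mach2

/-! `lim * PK_NN` is reducible to `PK`. -/

open Filter Topology

namespace R577.PKL

theorem nhds_cyl {x : ℕ → ℕ} {U : Set (ℕ → ℕ)} (hU : U ∈ 𝓝 x) :
    ∃ n, PiNat.cylinder x n ⊆ U := by
  rw [(PiNat.isTopologicalBasis_cylinders (fun _ : ℕ => ℕ)).mem_nhds_iff] at hU
  obtain ⟨t, ⟨y, n, rfl⟩, hxt, ht⟩ := hU
  refine ⟨n, ?_⟩
  rw [PiNat.mem_cylinder_iff_eq.1 hxt]
  exact ht

theorem mem_body_of_prefix {x : ℕ → ℕ} {τ : List ℕ} (h : pre x τ.length = τ) {m : ℕ}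
    {σ : List ℕ} (hσ : σ <+: τ) (hm : σ.length = m) : pre x m = σ := by
  rw [List.prefix_iff_eq_take, ← h, pre_take] at hσ
  rw [hσ]
  congr 1
  have := congrArg List.length hσ
  rw [pre_length] at this
  omega

theorem kernel (T : Tree) : _root_.Perfect (pk T).body ∧ (pk T).body ⊆ T.body ∧
    ∀ P : Set (ℕ → ℕ), _root_.Perfect P → P ⊆ T.body → P ⊆ (pk T).body := by
  refine ⟨⟨isClosed_body _, ?_⟩, ?_, ?_⟩
  · intro x hx
    rw [accPt_iff_nhds]
    intro U hU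
    obtain ⟨n, hn⟩ := nhds_cyl hU
    obtain ⟨τ₁, h1, τ₂, h2, h3, h4, h5, h6⟩ := pk_perfect T _ (hx n)
    have hne : ¬ (pre x τ₁.length = τ₁ ∧ pre x τ₂.length = τ₂) := by
      rintro ⟨h7, h8⟩
      rcases le_total τ₁.length τ₂.length with h9 | h9
      · have := pre_prefix (p := x) h9
        rw [h7, h8] at this
        exact h5 this
      · have := pre_prefix (p := x) h9
        rw [h7, h8] at this
        exact h6 this
    have key : ∀ τ ∈ (pk T).nodes, pre x n <+: τ → pre x τ.length ≠ τ →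
        ∃ y ∈ U ∩ (pk T).body, y ≠ x := by
      intro τ hτ hpre hneq
      obtain ⟨y, hy1, hy2⟩ := (pk_perfect T).path hτ
      refine ⟨y, ⟨hn ?_, hy1⟩, ?_⟩
      · rw [← pre_eq_iff_cylinder]
        exact mem_body_of_prefix hy2 hpre (pre_length _ _)
      · rintro rfl
        exact hneq hy2
    by_cases h7 : pre x τ₁.length = τ₁
    · exact key τ₂ h2 h4 (fun h8 => hne ⟨h7, h8⟩)
    · exact key τ₁ h1 h3 h7
  · intro x hx n
    exact pk_sub T (hx n)
  · intro P hP hPT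
    have hperf : (treeOf P).Perfect := by
      rintro σ ⟨x, hx, n, rfl⟩
      have hacc := accPt_iff_nhds.1 (hP.acc x hx) (PiNat.cylinder x n)
        ((PiNat.isOpen_cylinder _ x n).mem_nhds (PiNat.self_mem_cylinder x n))
      obtain ⟨y, ⟨hy1, hy2⟩, hy3⟩ := hacc
      rw [← pre_eq_iff_cylinder] at hy1
      obtain ⟨m, hm⟩ : ∃ m, y m ≠ x m := by
        by_contra h
        push Not at h
        exact hy3 (funext h)
      have hnm : n ≤ m := by
        by_contra h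
        exact hm (pre_eq_iff.1 hy1 m (by omega))
      have hne : pre x (m + 1) ≠ pre y (m + 1) := by
        intro h
        exact hm (pre_eq_iff.1 h m (by omega)).symm
      refine ⟨pre x (m + 1), ⟨x, hx, _, rfl⟩, pre y (m + 1), ⟨y, hy2, _, rfl⟩,
        pre_prefix (by omega), ?_, ?_, ?_⟩
      · rw [← hy1]; exact pre_prefix (by omega)
      · intro h
        exact hne (h.eq_of_length (by rw [pre_length, pre_length]))
      · intro h
        exact hne (h.eq_of_length (by rw [pre_length, pre_length])).symm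
    intro x hx n
    refine ⟨treeOf P, hperf, ?_, x, hx, n, rfl⟩
    rintro σ ⟨y, hy, k, rfl⟩
    exact hPT hy k

theorem nd_eq (e : ℕ) : nd e = num [e] := by
  simp [nd, num, Encodable.encode_list_cons]

theorem main {X Y Z : Type*} (rX : Rep X) (rY : Rep Y) (rZ : Rep Z) (f : Y → Set Z)
    (g : X → Set Y) (hf : WRed rY rZ f seqRep baireRep limP)
    (hg : WRed rX rY g closedRep closedRep PKN) :
    WRed rX rZ (compP f g) treeRep treeRep PK := by
  obtain ⟨φ₁, ψ₁, hφ₁, hψ₁, Hf⟩ := hf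
  obtain ⟨φ₂, ψ₂, hφ₂, hψ₂, Hg⟩ := hg
  refine ⟨fwd φ₁ φ₂ ψ₂, bwd φ₁ ψ₁ ψ₂, c_fwd hφ₁ hψ₂ hφ₂, c_bwd hφ₁ hψ₂ hψ₁, ?_⟩
  rintro p x hpx ⟨z0, hdom, y0, hy0, hz0⟩
  obtain ⟨a, A, ha, ⟨T, haT, hTA⟩, -, Hg2⟩ := Hg p x hpx ⟨y0, hy0⟩
  refine ⟨Uname φ₁ φ₂ ψ₂ p, Utree φ₁ φ₂ ψ₂ p, computes_fwd, Uname_names, ⟨pk _, pk_mem _⟩, ?_⟩
  intro r S hr hS
  have hS' := eq_pk hS
  subst hS'
  have hq : ∀ e, (r (nd e) = 1 ∧ Qu φ₁ ψ₂ p T e) ∨ (r (nd e) = 0 ∧ ¬ Qu φ₁ ψ₂ p T e) := by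
    intro e
    rw [← question ha haT e, nd_eq]
    by_cases h : [e] ∈ (pk (Utree φ₁ φ₂ ψ₂ p)).nodes
    · exact Or.inl ⟨(hr _).1 h, h⟩
    · exact Or.inr ⟨(hr _).2 h, h⟩
  have O : Orc φ₁ ψ₂ p (Pn T) (fun j => r (nd (e0 j))) (fun x => r (nd (e1 x))) := by
    refine ⟨fun j => ?_, fun c i m => ?_, fun j h => Pn_par h⟩
    · have := hq (e0 j)
      rwa [Qu_e0] at this
    · rw [← Qu_e1]
      rcases hq (e1 (c, i, m)) with ⟨h1, h2⟩ | ⟨h1, h2⟩
      · simp [h1, h2]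
      · simp [h1, h2]
  obtain ⟨c, hc⟩ := exists_limit O
  let K : Tree :=
    { nodes := {σ | c (num σ) ≠ 0}
      closed := by
        intro σ b h
        have hne : num (σ ++ [b]) ≠ 0 := by rw [num_snoc]; omega
        have := cpar_ne O hc h hne
        rwa [par_num_snoc] at this }
  have hK : treeRep.names (qs c) K := by
    intro σ
    constructor
    · intro h; exact if_neg h
    · intro h; exact if_pos (not_not.1 h)
  have hbody : K.body = (pk T).body := by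
    apply Set.Subset.antisymm
    · intro x hx n
      obtain ⟨σ, hσ, h⟩ := paths O hc hx n
      rw [← num_inj h]; exact hσ
    · intro x hx n
      have : c (num (pre x n)) = 1 := (c_one_iff O hc _).2 ⟨_, hx n, rfl⟩
      change c (num (pre x n)) ≠ 0
      omega
  have hker : (⟨K.body, isClosed_body K⟩ : ClosedSet) ∈ PKN A := by
    have := kernel T
    rw [← hbody, hTA] at this
    exact this
  obtain ⟨u, y, hu, huy, hy⟩ := Hg2 (qs c) ⟨K.body, isClosed_body K⟩ ⟨K, hK, rfl⟩ hker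
  obtain ⟨rs, s, hrs, hrss, ⟨l, hl⟩, Hf2⟩ := Hf u y huy (hdom y hy)
  obtain ⟨out, w, hout, how, hw⟩ := Hf2 l l rfl hl
  have hth : ∀ n, th φ₁ ψ₂ (pre p n) (pre (qs c) n) =
      φ₁ (pre u (ψ₂ (pre (join p (qs c)) (2 * n))).length) := by
    intro n
    unfold th
    rw [jw_pre, min_self, hu.1]
    simp only [pre_length]
  have H : Lim φ₁ ψ₂ p c rs l := by
    refine ⟨fun n => ?_, ?_, fun i => ?_⟩
    · rw [hth n]; exact hrs.1 _
    · simp only [hth]
      refine hrs.2.comp (hu.2.comp ?_)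
      exact tendsto_atTop_mono (fun n => (by simp only [id]; omega)) tendsto_id
    · have h1 := (tendsto_pi_nhds.1 hl) i
      rw [nhds_discrete, tendsto_pure, eventually_atTop] at h1
      obtain ⟨N, hN⟩ := h1
      exact ⟨N, fun k hk => by rw [hrss k i]; exact hN k hk⟩
  exact ⟨out, w, computes_bwd O hc H hu hout, how, hdom, y, hy, hw⟩

end R577.PKL
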