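import Pool.Agent.R577.PK.Fun

/-! Semantics of the questions. -/

open Filter Topology

namespace R577.PKL

theorem Tree.mem_of_prefix (T : Tree) {σ τ : List ℕ} (h : σ <+: τ) (hτ : τ ∈ T.nodes) :
    σ ∈ T.nodes := by
  obtain ⟨ρ, rfl⟩ := h
  induction ρ using List.reverseRecOn with
  | nil => simpa using hτ
  | append_singleton ρ a ih => exact ih (T.closed _ a (by simpa [List.append_assoc] using hτ))

/-- the largest perfect subtree -/
def pk (T : Tree) : Tree where
  nodes := {σ | ∃ Q : Tree, Q.Perfect ∧ Q.nodes ⊆ T.nodes ∧ σ ∈ Q.nodes}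
  closed := by
    rintro σ a ⟨Q, h1, h2, h3⟩
    exact ⟨Q, h1, h2, Q.closed _ a h3⟩

theorem pk_perfect (T : Tree) : (pk T).Perfect := by
  rintro σ ⟨Q, h1, h2, h3⟩
  obtain ⟨τ₁, h4, τ₂, h5, h6⟩ := h1 σ h3
  exact ⟨τ₁, ⟨Q, h1, h2, h4⟩, τ₂, ⟨Q, h1, h2, h5⟩, h6⟩

theorem pk_sub (T : Tree) : (pk T).nodes ⊆ T.nodes := by
  rintro σ ⟨Q, h1, h2, h3⟩
  exact h2 h3

theorem pk_mem (T : Tree) : pk T ∈ PK T :=
  ⟨pk_perfect T, pk_sub T, fun Q h1 h2 σ h3 => ⟨Q, h1, h2, h3⟩⟩

theorem eq_pk {T S : Tree} (h : S ∈ PK T) : S = pk T := by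
  apply Tree.ext
  apply Set.Subset.antisymm
  · intro σ hσ
    exact ⟨S, h.1, h.2.1, hσ⟩
  · exact h.2.2 _ (pk_perfect T) (pk_sub T)

theorem num_surj (j : ℕ) : ∃ σ, num σ = j :=
  ⟨(Denumerable.ofNat (List ℕ) j).reverse, by simp [num]⟩

theorem dl_num (σ : List ℕ) : dl (num σ) = σ.reverse := by
  simp [dl, num, dec_encode]

theorem dl_length_le (j : ℕ) : (dl j).length ≤ j := by
  obtain ⟨σ, rfl⟩ := num_surj j
  rw [dl_num, List.length_reverse]
  exact length_le_num σ

/-- every node of a perfect tree lies on a path -/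
theorem Tree.Perfect.path {Q : Tree} (hQ : Q.Perfect) {σ : List ℕ} (hσ : σ ∈ Q.nodes) :
    ∃ x ∈ Q.body, pre x σ.length = σ := by
  have step : ∀ τ : Q.nodes, ∃ τ' : Q.nodes, τ.1 <+: τ'.1 ∧ τ.1.length < τ'.1.length := by
    rintro ⟨τ, hτ⟩
    obtain ⟨τ₁, h1, τ₂, h2, h3, h4, h5, h6⟩ := hQ τ hτ
    refine ⟨⟨τ₁, h1⟩, h3, ?_⟩
    refine lt_of_le_of_ne h3.length_le fun h => ?_
    have : τ = τ₁ := h3.eq_of_length h
    subst this
    exact h5 h4
  choose f hf1 hf2 using step
  let s : ℕ → Q.nodes := fun n => f^[n] ⟨σ, hσ⟩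
  have hs : ∀ n, s (n + 1) = f (s n) := fun n => by
    simp only [s, Function.iterate_succ', Function.comp]
  have hlen : ∀ n, n + σ.length ≤ (s n).1.length := by
    intro n
    induction n with
    | zero => simp [s]
    | succ n ih => have := hf2 (s n); rw [hs]; omega
  have hpre : ∀ m n, m ≤ n → (s m).1 <+: (s n).1 := by
    intro m n hmn
    induction n, hmn using Nat.le_induction with
    | base => exact List.prefix_refl _
    | succ n hmn ih => rw [hs]; exact ih.trans (hf1 (s n))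
  let x : ℕ → ℕ := fun i => (s (i + 1)).1.getD i 0
  have hx : ∀ n, pre x n <+: (s n).1 := by
    intro n
    have hn := hlen n
    rw [List.prefix_iff_eq_take]
    apply ext_getD
    · rw [List.length_take, pre_length]; omega
    · intro i hi
      rw [pre_length] at hi ⊢
      rw [pre_getD _ _ _ hi]
      have h1 := hpre (i + 1) n hi
      have h2 := hlen (i + 1)
      obtain ⟨ρ, hρ⟩ := h1
      simp only [x]
      rw [← hρ]
      simp only [List.getD_eq_getElem?_getD]
      rw [List.getElem?_take_of_lt hi, List.getElem?_append_left (by omega)]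
  refine ⟨x, fun n => Q.mem_of_prefix (hx n) (s n).2, ?_⟩
  have h1 := hx σ.length
  have h2 : σ <+: (s σ.length).1 := hpre 0 σ.length (Nat.zero_le _)
  exact (List.prefix_of_prefix_length_le h1 h2 (by rw [pre_length])).eq_of_length (by rw [pre_length])

section
variable {φ₁ φ₂ ψ₂ : List ℕ → List ℕ} {p a : ℕ → ℕ} {T : Tree}

/-- the number of a node of the largest perfect subtree -/
def Pn (T : Tree) (j : ℕ) : Prop := ∃ σ ∈ (pk T).nodes, num σ = j

theorem Pn_par {j : ℕ} (h : Pn T j) : Pn T (par j) := by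
  obtain ⟨σ, hσ, rfl⟩ := h
  refine ⟨σ.dropLast, ?_, (par_num σ).symm⟩
  exact (pk T).mem_of_prefix (List.dropLast_prefix σ) hσ

/-- the meaning of the question `e` -/
def Qu (φ₁ ψ₂ : List ℕ → List ℕ) (p : ℕ → ℕ) (T : Tree) (e : ℕ) : Prop :=
  ∀ t k, fd φ₁ ψ₂ (pre p k) e t = true →
    ∃ j < (fw e t).length, (fw e t).getD j 0 = 0 ∧ Pn T j

theorem fd_mono {e t k k' : ℕ} (hk : k ≤ k') (h : fd φ₁ ψ₂ (pre p k) e t = true) :
    fd φ₁ ψ₂ (pre p k') e t = true := by
  unfold fd at h ⊢
  simp only [Bool.or_eq_true, Bool.and_eq_true, decide_eq_true_eq, pre_length, pre_take] at h ⊢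
  rcases h with h | ⟨h1, h2, h3⟩
  · exact Or.inl h
  · refine Or.inr ⟨by omega, h2, ?_⟩
    rw [min_eq_left h1] at h3
    rw [min_eq_left (by omega)]
    exact h3

theorem good_iff {u w : List ℕ} {e : ℕ} : good φ₁ φ₂ ψ₂ u e w = true ↔
    (∀ j < w.length, w.getD j 0 = 0 ∨
      (¬ (j < (φ₂ u).length ∧ (φ₂ u).getD j 0 = 0) ∧ (j = 0 ∨ w.getD (par j) 0 ≠ 0) ∧
      isExt j (Nat.unpair (w.getD j 0 - 1)).1 = true ∧ isExt j (Nat.unpair (w.getD j 0 - 1)).2 = true ∧
      isExt (Nat.unpair (w.getD j 0 - 1)).1 (Nat.unpair (w.getD j 0 - 1)).2 ≠ true ∧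
      isExt (Nat.unpair (w.getD j 0 - 1)).2 (Nat.unpair (w.getD j 0 - 1)).1 ≠ true ∧
      ((Nat.unpair (w.getD j 0 - 1)).1 < w.length → w.getD (Nat.unpair (w.getD j 0 - 1)).1 0 ≠ 0) ∧
      ((Nat.unpair (w.getD j 0 - 1)).2 < w.length → w.getD (Nat.unpair (w.getD j 0 - 1)).2 0 ≠ 0))) ∧
    (∀ t < w.length, fd φ₁ ψ₂ u e t = true → (fw e t).length ≤ w.length →
      ∃ j < (fw e t).length, (fw e t).getD j 0 = 0 ∧ w.getD j 0 ≠ 0) := by
  unfold good
  rw [Bool.and_eq_true]
  apply and_congr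
  · rw [List.all_eq_true]
    simp only [List.mem_range]
    apply forall₂_congr
    intro j hj
    simp only [Bool.or_eq_true, Bool.and_eq_true, Bool.not_eq_true', beq_iff_eq, decide_eq_true_eq,
      Bool.and_eq_false_iff, decide_eq_false_iff_not, beq_eq_false_iff_ne, ne_eq, not_lt,
      Bool.not_eq_true]
    apply or_congr Iff.rfl
    apply and_congr
    · rw [not_and_or, not_lt]
    · apply and_congr Iff.rfl
      apply and_congr Iff.rfl
      apply and_congr Iff.rfl
      apply and_congr Iff.rfl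
      apply and_congr Iff.rfl
      apply and_congr
      · rw [← not_lt]; tauto
      · rw [← not_lt]; tauto
  · rw [List.all_eq_true]
    simp only [List.mem_range]
    apply forall₂_congr
    intro t ht
    simp only [Bool.or_eq_true, Bool.not_eq_true', Bool.and_eq_false_iff, decide_eq_false_iff_not,
      List.any_eq_true, List.mem_range, Bool.and_eq_true, beq_iff_eq, beq_eq_false_iff_ne, ne_eq]
    constructor
    · rintro h h1 h2
      rcases h with (h | h) | h
      · rw [h] at h1; exact absurd h1 (by simp)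
      · exact absurd h2 h
      · exact h
    · intro h
      by_cases h1 : fd φ₁ ψ₂ u e t = true
      · by_cases h2 : (fw e t).length ≤ w.length
        · exact Or.inr (h h1 h2)
        · exact Or.inl (Or.inr h2)
      · exact Or.inl (Or.inl (by simpa using h1))

theorem sem (hφ : Computes φ₂ p a) (ha : treeRep.names a T) (e : ℕ) :
    (∃ z : ℕ → ℕ, ∀ k, good φ₁ φ₂ ψ₂ (pre p k) e (pre z k) = true) ↔ Qu φ₁ ψ₂ p T e := by
  constructor
  · rintro ⟨z, hz⟩
    -- consequences at large `k`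
    have key : ∀ j, z j ≠ 0 → a j ≠ 0 ∧ (j = 0 ∨ z (par j) ≠ 0) ∧
        isExt j (Nat.unpair (z j - 1)).1 = true ∧ isExt j (Nat.unpair (z j - 1)).2 = true ∧
        isExt (Nat.unpair (z j - 1)).1 (Nat.unpair (z j - 1)).2 ≠ true ∧
        isExt (Nat.unpair (z j - 1)).2 (Nat.unpair (z j - 1)).1 ≠ true ∧
        z (Nat.unpair (z j - 1)).1 ≠ 0 ∧ z (Nat.unpair (z j - 1)).2 ≠ 0 := by
      intro j hj
      obtain ⟨K, hK⟩ := (hφ.2.eventually_gt_atTop j).exists_forall_of_atTop
      set k := K + j + (Nat.unpair (z j - 1)).1 + (Nat.unpair (z j - 1)).2 + 1 with hk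
      have h := (good_iff.1 (hz k)).1 j (by rw [pre_length]; omega)
      rw [pre_getD _ _ _ (show j < k by omega), pre_length] at h
      rcases h with h | ⟨h1, h2, h3, h4, h5, h6, h7, h8⟩
      · exact absurd h hj
      have hlen := hK k (by omega)
      rw [pre_getD _ _ _ (show (Nat.unpair (z j - 1)).1 < k by omega)] at h7
      rw [pre_getD _ _ _ (show (Nat.unpair (z j - 1)).2 < k by omega)] at h8
      have hpar : par j < k := by
        by_cases h0 : j = 0
        · rw [h0, par_zero]; omega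
        · have := par_lt h0; omega
      rw [pre_getD _ _ _ hpar] at h2
      rw [hφ.getD k j hlen] at h1
      refine ⟨fun h0 => h1 ⟨hlen, h0⟩, h2, h3, h4, h5, h6, h7 (by omega), h8 (by omega)⟩
    let Q : Tree :=
      { nodes := {σ | z (num σ) ≠ 0}
        closed := by
          intro σ b h
          have := (key _ h).2.1
          rw [par_num_snoc] at this
          rcases this with h0 | h0
          · rw [num_snoc] at h0; omega
          · exact h0 }
    have hQp : Q.Perfect := by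
      intro σ hσ
      obtain ⟨-, -, h3, h4, h5, h6, h7, h8⟩ := key _ hσ
      obtain ⟨τ₁, ht1⟩ := num_surj (Nat.unpair (z (num σ) - 1)).1
      obtain ⟨τ₂, ht2⟩ := num_surj (Nat.unpair (z (num σ) - 1)).2
      rw [← ht1] at h3 h5 h6 h7
      rw [← ht2] at h4 h5 h6 h8
      rw [Ne, isExt_num] at h5 h6
      rw [isExt_num] at h3 h4
      exact ⟨τ₁, h7, τ₂, h8, h3, h4, h5, h6⟩
    have hQT : Q.nodes ⊆ T.nodes := by
      intro σ hσ
      by_contra h
      exact (key _ hσ).1 ((ha σ).2 h)
    intro t k h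
    set k' := k + t + (fw e t).length + 1 with hk'
    have h1 := (good_iff.1 (hz k')).2 t (by rw [pre_length]; omega)
      (fd_mono (show k ≤ k' by omega) h) (by rw [pre_length]; omega)
    obtain ⟨j, hj1, hj2, hj3⟩ := h1
    rw [pre_getD _ _ _ (show j < k' by omega)] at hj3
    obtain ⟨σ, hσ⟩ := num_surj j
    refine ⟨j, hj1, hj2, σ, ⟨Q, hQp, hQT, ?_⟩, hσ⟩
    change z (num σ) ≠ 0
    rw [hσ]; exact hj3
  · intro h
    classical
    have hch : ∀ j, Pn T j → ∃ v, v ≠ 0 ∧ Pn T (Nat.unpair (v - 1)).1 ∧ Pn T (Nat.unpair (v - 1)).2 ∧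
        isExt j (Nat.unpair (v - 1)).1 = true ∧ isExt j (Nat.unpair (v - 1)).2 = true ∧
        isExt (Nat.unpair (v - 1)).1 (Nat.unpair (v - 1)).2 ≠ true ∧
        isExt (Nat.unpair (v - 1)).2 (Nat.unpair (v - 1)).1 ≠ true := by
      rintro j ⟨σ, hσ, rfl⟩
      obtain ⟨τ₁, h1, τ₂, h2, h3, h4, h5, h6⟩ := pk_perfect T σ hσ
      refine ⟨Nat.pair (num τ₁) (num τ₂) + 1, by omega, ?_⟩
      rw [Nat.add_sub_cancel, Nat.unpair_pair]
      simp only [isExt_num, ne_eq]
      exact ⟨⟨τ₁, h1, rfl⟩, ⟨τ₂, h2, rfl⟩, h3, h4, h5, h6⟩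
    choose g hg using hch
    let z : ℕ → ℕ := fun j => if h : Pn T j then g j h else 0
    have hz1 : ∀ j, Pn T j → z j ≠ 0 := fun j hj => by
      simp only [z, dif_pos hj]; exact (hg j hj).1
    have hz2 : ∀ j, z j ≠ 0 → Pn T j := fun j hj => by
      by_contra h'
      exact hj (dif_neg h')
    refine ⟨z, fun k => good_iff.2 ⟨fun j hj => ?_, fun t ht h1 h2 => ?_⟩⟩
    · rw [pre_length] at hj ⊢
      rw [pre_getD _ _ _ hj]
      by_cases h0 : z j = 0
      · exact Or.inl h0
      right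
      have hP := hz2 j h0
      have hzj : z j = g j hP := dif_pos hP
      rw [hzj]
      obtain ⟨-, h2, h3, h4, h5, h6, h7⟩ := hg j hP
      refine ⟨?_, ?_, h4, h5, h6, h7, ?_, ?_⟩
      · rintro ⟨hl, h0'⟩
        rw [hφ.getD k j hl] at h0'
        obtain ⟨σ, hσ, rfl⟩ := hP
        have := (ha σ).1 (pk_sub T hσ)
        omega
      · by_cases hj0 : j = 0
        · exact Or.inl hj0
        · right
          rw [pre_getD _ _ _ (by have := par_lt hj0; omega)]
          exact hz1 _ (Pn_par hP)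
      · intro hlt
        rw [pre_getD _ _ _ hlt]
        exact hz1 _ h2
      · intro hlt
        rw [pre_getD _ _ _ hlt]
        exact hz1 _ h3
    · obtain ⟨j, hj1, hj2, hj3⟩ := h t k h1
      refine ⟨j, hj1, hj2, ?_⟩
      rw [pre_length] at h2
      rw [pre_getD _ _ _ (by omega)]
      exact hz1 j hj3

/-- the tree of questions -/
def Utree (φ₁ φ₂ ψ₂ : List ℕ → List ℕ) (p : ℕ → ℕ) : Tree where
  nodes := {σ | ∀ k < σ.length, good φ₁ φ₂ ψ₂ (pre p k) (σ.getD 0 0)
    ((List.range k).map (fun i => σ.getD (i + 1) 0 / 2)) = true}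
  closed := by
    intro σ b h k hk
    have := h k (by simp; omega)
    have h0 : (σ ++ [b]).getD 0 0 = σ.getD 0 0 := by
      simp only [List.getD_eq_getElem?_getD]
      rw [List.getElem?_append_left (by omega)]
    have h1 : (List.range k).map (fun i => (σ ++ [b]).getD (i + 1) 0 / 2) =
        (List.range k).map (fun i => σ.getD (i + 1) 0 / 2) := by
      apply List.map_congr_left
      intro i hi
      rw [List.mem_range] at hi
      simp only [List.getD_eq_getElem?_getD]
      rw [List.getElem?_append_left (by omega)]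
    rw [h0, h1] at this
    exact this

theorem getD_reverse (σ : List ℕ) (i : ℕ) (h : i < σ.length) :
    σ.reverse.getD (σ.length - 1 - i) 0 = σ.getD i 0 := by
  simp only [List.getD_eq_getElem?_getD]
  rw [List.getElem?_reverse (by omega)]
  congr 2
  omega

theorem inU_iff (σ : List ℕ) (n : ℕ) (hn : num σ < n) :
    inU φ₁ φ₂ ψ₂ (pre p n) (num σ) = true ↔ σ ∈ (Utree φ₁ φ₂ ψ₂ p).nodes := by
  unfold inU
  rw [List.all_eq_true, dl_num, List.length_reverse]
  simp only [List.mem_range]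
  apply forall₂_congr
  intro k hk
  have hl := length_le_num σ
  rw [pre_take, min_eq_left (by omega)]
  have h0 : σ.reverse.getD (σ.length - 1) 0 = σ.getD 0 0 := by
    have := getD_reverse σ 0 (by omega)
    simpa using this
  have h1 : (List.range k).map (fun i => σ.reverse.getD (σ.length - 2 - i) 0 / 2) =
      (List.range k).map (fun i => σ.getD (i + 1) 0 / 2) := by
    apply List.map_congr_left
    intro i hi
    rw [List.mem_range] at hi
    have := getD_reverse σ (i + 1) (by omega)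
    rw [← this]
    congr 2
    omega
  rw [h0, h1]

theorem inU_stable (j n : ℕ) (hn : j < n) :
    inU φ₁ φ₂ ψ₂ (pre p n) j = inU φ₁ φ₂ ψ₂ (pre p (j + 1)) j := by
  obtain ⟨σ, rfl⟩ := num_surj j
  rw [Bool.eq_iff_iff, inU_iff σ n hn, inU_iff σ _ (Nat.lt_succ_self _)]

/-- name of the tree of questions -/
def Uname (φ₁ φ₂ ψ₂ : List ℕ → List ℕ) (p : ℕ → ℕ) (j : ℕ) : ℕ :=
  bif inU φ₁ φ₂ ψ₂ (pre p (j + 1)) j then 1 else 0

theorem Uname_names : treeRep.names (Uname φ₁ φ₂ ψ₂ p) (Utree φ₁ φ₂ ψ₂ p) := by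
  intro σ
  have h := inU_iff (φ₁ := φ₁) (φ₂ := φ₂) (ψ₂ := ψ₂) (p := p) σ _ (Nat.lt_succ_self _)
  constructor
  · intro hσ
    unfold Uname
    rw [h.2 hσ]; rfl
  · intro hσ
    unfold Uname
    have : inU φ₁ φ₂ ψ₂ (pre p (num σ + 1)) (num σ) = false := by
      rw [← Bool.not_eq_true]
      exact fun h' => hσ (h.1 h')
    rw [this]; rfl

theorem computes_fwd : Computes (fwd φ₁ φ₂ ψ₂) p (Uname φ₁ φ₂ ψ₂ p) := by
  have hlen : ∀ k, (fwd φ₁ φ₂ ψ₂ (pre p k)).length = k := by
    intro k; simp [fwd, pre_length]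
  constructor
  · intro k
    rw [hlen]
    unfold fwd pre
    simp only [List.length_map, List.length_range]
    apply List.map_congr_left
    intro j hj
    rw [List.mem_range] at hj
    have := inU_stable (φ₁ := φ₁) (φ₂ := φ₂) (ψ₂ := ψ₂) (p := p) j k hj
    unfold pre at this
    rw [this]
    rfl
  · simp only [hlen]
    exact tendsto_id

theorem single_mem_iff (e : ℕ) :
    [e] ∈ (pk (Utree φ₁ φ₂ ψ₂ p)).nodes ↔
      ∃ z : ℕ → ℕ, ∀ k, good φ₁ φ₂ ψ₂ (pre p k) e (pre z k) = true := by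
  constructor
  · intro h
    obtain ⟨x, hx, hx1⟩ := (pk_perfect _).path h
    have hx0 : x 0 = e := by
      have := congrArg (fun l => l.getD 0 0) hx1
      simpa [pre] using this
    refine ⟨fun k => x (k + 1) / 2, fun k => ?_⟩
    have h1 := pk_sub _ (hx (k + 1)) k (by rw [pre_length]; omega)
    rw [pre_getD _ _ _ (by omega), hx0] at h1
    have h2 : (List.range k).map (fun i => (pre x (k + 1)).getD (i + 1) 0 / 2) =
        pre (fun k => x (k + 1) / 2) k := by
      unfold pre
      apply List.map_congr_left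
      intro i hi
      rw [List.mem_range] at hi
      have := pre_getD x (k + 1) (i + 1) (by omega)
      unfold pre at this
      rw [this]
    rw [h2] at h1
    exact h1
  · rintro ⟨z, hz⟩
    let C : ℕ → ℕ → Prop := fun i v => (i = 0 → v = e) ∧ (∀ i', i = i' + 1 → v / 2 = z i')
    let Q : Tree :=
      { nodes := {σ | ∀ i < σ.length, C i (σ.getD i 0)}
        closed := by
          intro σ b h i hi
          have := h i (by simp; omega)
          simp only [List.getD_eq_getElem?_getD] at this ⊢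
          rw [List.getElem?_append_left (by omega)] at this
          exact this }
    have hext : ∀ σ ∈ Q.nodes, ∀ v, C σ.length v → σ ++ [v] ∈ Q.nodes := by
      intro σ hσ v hv i hi
      simp only [List.length_append, List.length_cons, List.length_nil] at hi
      simp only [List.getD_eq_getElem?_getD]
      by_cases h : i < σ.length
      · rw [List.getElem?_append_left h]
        exact hσ i h
      · have : i = σ.length := by omega
        subst this
        simpa using hv
    have hone : ([e] : List ℕ) ∈ Q.nodes := by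
      intro i hi
      have : i = 0 := by simpa using hi
      subst this
      exact ⟨fun _ => rfl, fun i' h => by omega⟩
    have hsplit : ∀ σ ∈ Q.nodes, 0 < σ.length → ∃ τ₁ ∈ Q.nodes, ∃ τ₂ ∈ Q.nodes,
        σ <+: τ₁ ∧ σ <+: τ₂ ∧ ¬ τ₁ <+: τ₂ ∧ ¬ τ₂ <+: τ₁ := by
      intro σ hσ h0
      obtain ⟨n, hn⟩ : ∃ n, σ.length = n + 1 := ⟨σ.length - 1, by omega⟩
      have hne : ∀ u v : ℕ, u ≠ v → ¬ (σ ++ [u]) <+: (σ ++ [v]) := by
        intro u v huv h
        have := h.eq_of_length (by simp)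
        simp at this
        exact huv this
      refine ⟨σ ++ [2 * z n], hext σ hσ _ ⟨fun h => by omega, fun i' h => ?_⟩,
        σ ++ [2 * z n + 1], hext σ hσ _ ⟨fun h => by omega, fun i' h => ?_⟩,
        List.prefix_append _ _, List.prefix_append _ _, hne _ _ (by omega), hne _ _ (by omega)⟩
      · have : i' = n := by omega
        subst this; omega
      · have : i' = n := by omega
        subst this; omega
    refine ⟨Q, ?_, ?_, hone⟩
    · intro σ hσ
      by_cases h0 : 0 < σ.length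
      · exact hsplit σ hσ h0
      · have : σ = [] := List.length_eq_zero_iff.1 (by omega)
        subst this
        obtain ⟨τ₁, h1, τ₂, h2, h3, h4, h5⟩ := hsplit [e] hone (by simp)
        exact ⟨τ₁, h1, τ₂, h2, List.nil_prefix, List.nil_prefix, h5⟩
    · intro σ hσ k hk
      have h0 : σ.getD 0 0 = e := (hσ 0 (by omega)).1 rfl
      have h1 : (List.range k).map (fun i => σ.getD (i + 1) 0 / 2) = pre z k := by
        unfold pre
        apply List.map_congr_left
        intro i hi
        rw [List.mem_range] at hi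
        exact (hσ (i + 1) (by omega)).2 i rfl
      rw [h0, h1]
      exact hz k

theorem question (hφ : Computes φ₂ p a) (ha : treeRep.names a T) (e : ℕ) :
    [e] ∈ (pk (Utree φ₁ φ₂ ψ₂ p)).nodes ↔ Qu φ₁ ψ₂ p T e :=
  (single_mem_iff e).trans (sem hφ ha e)

theorem Qu_e0 (j : ℕ) : Qu φ₁ ψ₂ p T (e0 j) ↔ Pn T j := by
  have hfd : ∀ k t, fd φ₁ ψ₂ (pre p k) (e0 j) t = true := by
    intro k t
    simp [fd, e0]
  have hfw : ∀ t, fw (e0 j) t = (List.range (j + 1)).map (fun i => bif i == j then 0 else 1) := by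
    intro t
    simp [fw, e0]
  have hlen : ∀ t, (fw (e0 j) t).length = j + 1 := by intro t; rw [hfw]; simp
  constructor
  · intro h
    obtain ⟨i, hi1, hi2, hi3⟩ := h 0 0 (hfd 0 0)
    rw [hlen] at hi1
    rw [hfw, getD_mapr _ _ _ hi1] at hi2
    by_cases hij : i = j
    · rw [← hij]; exact hi3
    · have : (i == j) = false := by simpa using hij
      rw [this] at hi2
      exact absurd hi2 (by simp)
  · intro h t k _
    refine ⟨j, by rw [hlen]; omega, ?_, h⟩
    rw [hfw, getD_mapr _ _ _ (by omega)]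
    simp

theorem Qu_e1 (c : List ℕ) (i m : ℕ) : Qu φ₁ ψ₂ p T (e1 (c, i, m)) ↔
    ∀ t, valid c (cs t) = true → dd φ₁ ψ₂ (pre p (cs t).length) (cs t) (ck t) i m = true →
      ∃ j < (cs t).length, (cs t).getD j 0 = 0 ∧ Pn T j := by
  have hqc : qc (e1 (c, i, m)) = (c, i, m) := by
    unfold qc e1
    rw [Nat.unpair_pair]
    exact dec_encode _ _
  have h1 : ((Nat.unpair (e1 (c, i, m))).1 == 0) = false := by simp [e1]
  have hfd : ∀ k t, fd φ₁ ψ₂ (pre p k) (e1 (c, i, m)) t = true ↔
      (cs t).length ≤ k ∧ valid c (cs t) = true ∧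
        dd φ₁ ψ₂ (pre p (cs t).length) (cs t) (ck t) i m = true := by
    intro k t
    unfold fd
    rw [h1, hqc]
    simp only [Bool.false_or, Bool.and_eq_true, decide_eq_true_eq, pre_length, pre_take]
    constructor
    · rintro ⟨h2, h3, h4⟩
      rw [min_eq_left h2] at h4
      exact ⟨h2, h3, h4⟩
    · rintro ⟨h2, h3, h4⟩
      rw [min_eq_left h2]
      exact ⟨h2, h3, h4⟩
  have hfw : ∀ t, fw (e1 (c, i, m)) t = cs t := by
    intro t
    unfold fw
    rw [h1]; rfl
  unfold Qu
  constructor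
  · intro h t h2 h3
    have := h t (cs t).length ((hfd _ _).2 ⟨le_refl _, h2, h3⟩)
    rw [hfw] at this
    exact this
  · intro h t k h2
    obtain ⟨-, h3, h4⟩ := (hfd _ _).1 h2
    rw [hfw]
    exact h t h3 h4

end

end R577.PKL
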