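import Mathlib

/-! Weihrauch reducibility, trees, perfect kernels, limits: the definitions of the statement. -/

open Filter Topology

namespace R577.PKL

/-- the word `p 0, ..., p (n-1)` -/
def pre (p : ℕ → ℕ) (n : ℕ) : List ℕ := (List.range n).map p

/-- The word function `φ` computes the point `q` of Baire space from the point `p`: on the
initial segments of `p` it outputs initial segments of `q` whose length tends to infinity. -/
def Computes (φ : List ℕ → List ℕ) (p q : ℕ → ℕ) : Prop :=
  (∀ k, φ (pre p k) = pre q (φ (pre p k)).length) ∧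
    Tendsto (fun k => (φ (pre p k)).length) atTop atTop

/-- the pair `⟨p, q⟩` -/
def join (p q : ℕ → ℕ) (n : ℕ) : ℕ := if n % 2 = 0 then p (n / 2) else q (n / 2)

/-- A represented space: names are points of Baire space. -/
structure Rep (X : Type*) where
  names : (ℕ → ℕ) → X → Prop
  unique : ∀ p x y, names p x → names p y → x = y
  onto : ∀ x, ∃ p, names p x

/-- Weihrauch reducibility `f ≤_W g` of partial multivalued functions `f : X ⇉ Y`, `g : Z ⇉ W`
between represented spaces; `x ∈ dom f` means that `f x` is nonempty. -/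
def WRed {X Y Z W : Type*} (rX : Rep X) (rY : Rep Y) (f : X → Set Y)
    (rZ : Rep Z) (rW : Rep W) (g : Z → Set W) : Prop :=
  ∃ φ ψ : List ℕ → List ℕ, Computable φ ∧ Computable ψ ∧
    ∀ p x, rX.names p x → (f x).Nonempty →
      ∃ q z, Computes φ p q ∧ rZ.names q z ∧ (g z).Nonempty ∧
        ∀ r w, rW.names r w → w ∈ g z →
          ∃ s y, Computes ψ (join p r) s ∧ rY.names s y ∧ y ∈ f x

/-- The composition `f ∘ g` of problems: its domain is the set of `x ∈ dom g` with
`g x ⊆ dom f`. -/
def compP {X Y Z : Type*} (f : Y → Set Z) (g : X → Set Y) : X → Set Z :=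
  fun x => {z | (∀ y ∈ g x, (f y).Nonempty) ∧ ∃ y ∈ g x, z ∈ f y}

/-- trees on `ℕ` -/
@[ext] structure Tree where
  nodes : Set (List ℕ)
  closed : ∀ (σ : List ℕ) (a : ℕ), σ ++ [a] ∈ nodes → σ ∈ nodes

/-- infinite paths -/
def Tree.body (T : Tree) : Set (ℕ → ℕ) := {x | ∀ n, pre x n ∈ T.nodes}

/-- perfect trees -/
def Tree.Perfect (T : Tree) : Prop :=
  ∀ σ ∈ T.nodes, ∃ τ₁ ∈ T.nodes, ∃ τ₂ ∈ T.nodes, σ <+: τ₁ ∧ σ <+: τ₂ ∧ ¬ τ₁ <+: τ₂ ∧ ¬ τ₂ <+: τ₁

/-- a computable numbering of the nodes -/
def num (σ : List ℕ) : ℕ := Encodable.encode σ.reverse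

theorem num_inj {σ τ : List ℕ} (h : num σ = num τ) : σ = τ := by
  have := Encodable.encode_injective h
  simpa using congrArg List.reverse this

/-- trees are named by their characteristic functions -/
def treeRep : Rep Tree where
  names p T := ∀ σ, (σ ∈ T.nodes → p (num σ) = 1) ∧ (σ ∉ T.nodes → p (num σ) = 0)
  unique p S T hS hT := by
    ext σ
    constructor
    · intro h
      by_contra h'
      have h1 := (hS σ).1 h
      have h2 := (hT σ).2 h'
      omega
    · intro h
      by_contra h'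
      have h1 := (hT σ).1 h
      have h2 := (hS σ).2 h'
      omega
  onto T := by
    classical
    refine ⟨fun n => if ∃ σ ∈ T.nodes, num σ = n then 1 else 0, fun σ => ⟨fun h => ?_, fun h => ?_⟩⟩
    · exact if_pos ⟨σ, h, rfl⟩
    · refine if_neg ?_
      rintro ⟨τ, hτ, h'⟩
      exact h (num_inj h' ▸ hτ)

/-- The problem `PK`: the largest perfect subtree. -/
def PK (T : Tree) : Set Tree :=
  {S | S.Perfect ∧ S.nodes ⊆ T.nodes ∧
    ∀ Q : Tree, Q.Perfect → Q.nodes ⊆ T.nodes → Q.nodes ⊆ S.nodes}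

/-- Baire space with the identity representation -/
def baireRep : Rep (ℕ → ℕ) where
  names p x := p = x
  unique _ _ _ h h' := h.symm.trans h'
  onto x := ⟨x, rfl⟩

/-- sequences in Baire space -/
def seqRep : Rep (ℕ → ℕ → ℕ) where
  names p x := ∀ n i, p (Nat.pair n i) = x n i
  unique p x y h h' := by funext n i; rw [← h, h']
  onto x := ⟨fun k => x (Nat.unpair k).1 (Nat.unpair k).2, fun n i => by simp⟩

/-- The problem `lim` on Baire space. -/
def limP (s : ℕ → ℕ → ℕ) : Set (ℕ → ℕ) := {l | Tendsto s atTop (𝓝 l)}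

/-- Closed subsets of Baire space. -/
abbrev ClosedSet : Type := {A : Set (ℕ → ℕ) // IsClosed A}

theorem pre_length (p : ℕ → ℕ) (n : ℕ) : (pre p n).length = n := by simp [pre]

theorem pre_eq_iff {p q : ℕ → ℕ} {n : ℕ} : pre p n = pre q n ↔ ∀ i < n, p i = q i := by
  simp [pre]

theorem pre_eq_iff_cylinder {p q : ℕ → ℕ} {n : ℕ} :
    pre p n = pre q n ↔ p ∈ PiNat.cylinder q n := by
  simp [pre_eq_iff, PiNat.cylinder]

theorem pre_succ (p : ℕ → ℕ) (n : ℕ) : pre p (n + 1) = pre p n ++ [p n] := by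
  simp [pre, List.range_succ]

/-- The problem of the perfect kernel of a closed set. -/
def PKN (A : ClosedSet) : Set ClosedSet :=
  {K | _root_.Perfect K.1 ∧ K.1 ⊆ A.1 ∧ ∀ P : Set (ℕ → ℕ), _root_.Perfect P → P ⊆ A.1 → P ⊆ K.1}

theorem isClosed_body (T : Tree) : IsClosed T.body := by
  rw [← isOpen_compl_iff, isOpen_iff_mem_nhds]
  intro x hx
  simp only [Set.mem_compl_iff, Tree.body, Set.mem_setOf_eq, not_forall] at hx
  obtain ⟨n, hn⟩ := hx
  refine Filter.mem_of_superset ((PiNat.isOpen_cylinder _ x n).mem_nhds (PiNat.self_mem_cylinder x n)) ?_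
  intro y hy hy'
  apply hn
  rw [← pre_eq_iff_cylinder.2 hy]
  exact hy' n

/-- the tree of the initial segments of the elements of a set -/
def treeOf (A : Set (ℕ → ℕ)) : Tree where
  nodes := {σ | ∃ x ∈ A, ∃ n, pre x n = σ}
  closed := by
    rintro σ a ⟨x, hx, n, hn⟩
    cases n with
    | zero => simp [pre] at hn
    | succ n =>
      rw [pre_succ] at hn
      exact ⟨x, hx, n, (List.append_inj' hn rfl).1⟩

theorem pre_take (p : ℕ → ℕ) (n k : ℕ) : (pre p n).take k = pre p (min k n) := by
  simp [pre, ← List.map_take, List.take_range]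

theorem body_treeOf {A : Set (ℕ → ℕ)} (hA : IsClosed A) : (treeOf A).body = A := by
  apply Set.Subset.antisymm
  · intro x hx
    by_contra hx'
    have : Aᶜ ∈ 𝓝 x := hA.isOpen_compl.mem_nhds hx'
    rw [(PiNat.isTopologicalBasis_cylinders (fun _ : ℕ => ℕ)).mem_nhds_iff] at this
    obtain ⟨t, ⟨y, n, rfl⟩, hxt, ht⟩ := this
    obtain ⟨z, hz, m, hm⟩ := hx n
    have hmn : m = n := by
      have := congrArg List.length hm
      simpa [pre_length] using this
    subst hmn
    have h1 : z ∈ PiNat.cylinder y m := by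
      rw [← pre_eq_iff_cylinder] at hxt ⊢
      rw [hm, hxt]
    exact ht h1 hz
  · intro x hx n
    exact ⟨x, hx, n, rfl⟩

/-- A closed set is named by (the characteristic function of) any tree whose body it is. -/
def closedRep : Rep ClosedSet where
  names p A := ∃ T : Tree, treeRep.names p T ∧ T.body = A.1
  unique := by
    rintro p A B ⟨S, hS, hA⟩ ⟨T, hT, hB⟩
    have : S = T := treeRep.unique p S T hS hT
    subst this
    exact Subtype.ext (hA.symm.trans hB)
  onto := by
    intro A
    obtain ⟨p, hp⟩ := treeRep.onto (treeOf A.1)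
    exact ⟨p, treeOf A.1, hp, body_treeOf A.2⟩

end R577.PKL
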