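import Pool.Agent.R577.PK.Comp
import Pool.Agent.R577.PK.Stmt

/-! Lemmas on words. -/

open Filter Topology

namespace R577.PKL

theorem pre_getD (p : ℕ → ℕ) (n i : ℕ) (h : i < n) : (pre p n).getD i 0 = p i := by
  simp [pre, List.getD, h]

theorem pre_prefix {p : ℕ → ℕ} {m n : ℕ} (h : m ≤ n) : pre p m <+: pre p n := by
  have : pre p m = (pre p n).take m := by rw [pre_take, min_eq_left h]
  rw [this]; exact List.take_prefix _ _

theorem ext_getD {u v : List ℕ} (hl : u.length = v.length)
    (h : ∀ i < u.length, u.getD i 0 = v.getD i 0) : u = v := by
  apply List.ext_getElem hl
  intro i h1 h2
  have := h i h1
  simpa [List.getD, h1, h2] using this

theorem getD_mapr (f : ℕ → ℕ) (n i : ℕ) (h : i < n) : ((List.range n).map f).getD i 0 = f i :=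
  pre_getD f n i h

/-- words of joins -/
def jw (u v : List ℕ) : List ℕ :=
  (List.range (2 * min u.length v.length)).map
    (fun j => bif j % 2 == 0 then u.getD (j / 2) 0 else v.getD (j / 2) 0)

theorem jw_length (u v : List ℕ) : (jw u v).length = 2 * min u.length v.length := by simp [jw]

theorem jw_pre (p q : ℕ → ℕ) (a b : ℕ) :
    jw (pre p a) (pre q b) = pre (join p q) (2 * min a b) := by
  unfold jw
  rw [pre_length, pre_length]
  unfold pre
  apply List.map_congr_left
  intro j hj
  rw [List.mem_range] at hj
  have h1 : j / 2 < a := by omega
  have h2 : j / 2 < b := by omega
  change (bif j % 2 == 0 then (pre p a).getD (j / 2) 0 else (pre q b).getD (j / 2) 0) = _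
  rw [pre_getD _ _ _ h1, pre_getD _ _ _ h2]
  unfold join
  by_cases h : j % 2 = 0
  · simp [h]
  · have : (j % 2 == 0) = false := by simpa using h
    rw [this, if_neg h]; rfl

theorem c_jw {α : Type} [Primcodable α] {f g : α → List ℕ} (hf : Computable f) (hg : Computable g) :
    Computable fun a => jw (f a) (g a) := by
  have : Computable fun x : List ℕ × List ℕ => jw x.1 x.2 := by
    unfold jw
    repeat' (first
      | with_reducible assumption | with_reducible exact c_id | with_reducible exact c_const _
      | with_reducible apply c_fst | with_reducible apply c_snd | with_reducible apply c_cond
      | with_reducible apply c_all | with_reducible apply c_any | with_reducible apply c_mapr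
      | with_reducible apply c_and | with_reducible apply c_or | with_reducible apply c_not
      | with_reducible apply c_beq | with_reducible apply c_lt | with_reducible apply c_le
      | with_reducible apply c_add | with_reducible apply c_sub | with_reducible apply c_mul
      | with_reducible apply c_div | with_reducible apply c_mod | with_reducible apply c_min
      | with_reducible apply c_np | with_reducible apply c_unpair | with_reducible apply c_len
      | with_reducible apply c_getD | with_reducible apply c_take | with_reducible apply c_app
      | with_reducible apply c_sing | with_reducible apply c_enc | with_reducible apply c_dec
      | with_reducible apply c_pair)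
  have h := this.comp (hf.pair hg)
  exact h

/-- signature of a word -/
def sg (c : List ℕ) : List ℕ :=
  (List.range c.length).map (fun j => bif c.getD j 0 == 0 then 0 else 1)

theorem sg_length (c : List ℕ) : (sg c).length = c.length := by simp [sg]

theorem sg_getD (c : List ℕ) (j : ℕ) (h : j < c.length) :
    (sg c).getD j 0 = if c.getD j 0 = 0 then 0 else 1 := by
  unfold sg
  rw [getD_mapr _ _ _ h]
  by_cases h' : c.getD j 0 = 0
  · rw [h']; rfl
  · have : (c.getD j 0 == 0) = false := by simpa using h'
    rw [this, if_neg h']; rfl

theorem c_sg {α : Type} [Primcodable α] {f : α → List ℕ} (hf : Computable f) :
    Computable fun a => sg (f a) := by
  have : Computable sg := by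
    unfold sg
    repeat' (first
      | with_reducible assumption | with_reducible exact c_id | with_reducible exact c_const _
      | with_reducible apply c_fst | with_reducible apply c_snd | with_reducible apply c_cond
      | with_reducible apply c_all | with_reducible apply c_any | with_reducible apply c_mapr
      | with_reducible apply c_and | with_reducible apply c_or | with_reducible apply c_not
      | with_reducible apply c_beq | with_reducible apply c_lt | with_reducible apply c_le
      | with_reducible apply c_add | with_reducible apply c_sub | with_reducible apply c_mul
      | with_reducible apply c_div | with_reducible apply c_mod | with_reducible apply c_min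
      | with_reducible apply c_np | with_reducible apply c_unpair | with_reducible apply c_len
      | with_reducible apply c_getD | with_reducible apply c_take | with_reducible apply c_app
      | with_reducible apply c_sing | with_reducible apply c_enc | with_reducible apply c_dec
      | with_reducible apply c_pair)
  have h := this.comp hf
  exact h

theorem Computes.getD {φ : List ℕ → List ℕ} {p q : ℕ → ℕ} (h : Computes φ p q) (k i : ℕ)
    (hi : i < (φ (pre p k)).length) : (φ (pre p k)).getD i 0 = q i := by
  have := h.1 k
  rw [this]
  apply pre_getD
  simpa using hi

theorem num_nil : num [] = 0 := rfl

theorem num_snoc (σ : List ℕ) (a : ℕ) : num (σ ++ [a]) = Nat.pair a (num σ) + 1 := by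
  simp [num, Encodable.encode_list_cons]

/-- the number of the parent of a node -/
def par (n : ℕ) : ℕ := (Nat.unpair (n - 1)).2

theorem par_zero : par 0 = 0 := by simp [par, Nat.unpair_zero]

theorem par_num_snoc (σ : List ℕ) (a : ℕ) : par (num (σ ++ [a])) = num σ := by
  simp [par, num_snoc]

theorem par_num (σ : List ℕ) : par (num σ) = num σ.dropLast := by
  rcases List.eq_nil_or_concat σ with rfl | ⟨τ, a, rfl⟩
  · simp [num_nil, par_zero]
  · rw [List.concat_eq_append, par_num_snoc]; simp

theorem par_lt {n : ℕ} (h : n ≠ 0) : par n < n := by
  have := Nat.unpair_right_le (n - 1)
  unfold par
  omega

theorem num_lt_snoc (σ : List ℕ) (a : ℕ) : num σ < num (σ ++ [a]) := by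
  rw [num_snoc]
  have := Nat.right_le_pair a (num σ)
  omega

theorem num_ne_zero {σ : List ℕ} (h : σ ≠ []) : num σ ≠ 0 := by
  intro h'
  exact h (num_inj (h'.trans num_nil.symm))

theorem length_le_num (σ : List ℕ) : σ.length ≤ num σ := by
  induction σ using List.reverseRecOn with
  | nil => simp
  | append_singleton σ a ih =>
    have := num_lt_snoc σ a
    simp only [List.length_append, List.length_cons, List.length_nil]
    omega

theorem c_par {α : Type} [Primcodable α] {f : α → ℕ} (hf : Computable f) :
    Computable fun a => par (f a) := by
  have : Computable par := by
    unfold par
    repeat' (first
      | with_reducible assumption | with_reducible exact c_id | with_reducible exact c_const _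
      | with_reducible apply c_fst | with_reducible apply c_snd | with_reducible apply c_cond
      | with_reducible apply c_all | with_reducible apply c_any | with_reducible apply c_mapr
      | with_reducible apply c_and | with_reducible apply c_or | with_reducible apply c_not
      | with_reducible apply c_beq | with_reducible apply c_lt | with_reducible apply c_le
      | with_reducible apply c_add | with_reducible apply c_sub | with_reducible apply c_mul
      | with_reducible apply c_div | with_reducible apply c_mod | with_reducible apply c_min
      | with_reducible apply c_np | with_reducible apply c_unpair | with_reducible apply c_len
      | with_reducible apply c_getD | with_reducible apply c_take | with_reducible apply c_app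
      | with_reducible apply c_sing | with_reducible apply c_enc | with_reducible apply c_dec
      | with_reducible apply c_pair)
  have h := this.comp hf
  exact h

theorem iter_par_num (σ : List ℕ) (k : ℕ) : par^[k] (num σ) = num (σ.take (σ.length - k)) := by
  induction k with
  | zero => simp
  | succ k ih =>
    rw [Function.iterate_succ', Function.comp, ih, par_num]
    congr 1
    rw [List.dropLast_eq_take, List.take_take]
    congr 1
    simp only [List.length_take]
    omega

/-- `isExt s t`: the node number `s` is an ancestor of the node number `t` (or equal) -/
def isExt (s t : ℕ) : Bool := (List.range (t + 1)).any (fun k => par^[k] t == s)

theorem isExt_num (σ τ : List ℕ) : isExt (num σ) (num τ) = true ↔ σ <+: τ := by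
  unfold isExt
  simp only [List.any_eq_true, List.mem_range, beq_iff_eq]
  constructor
  · rintro ⟨k, -, hk⟩
    rw [iter_par_num] at hk
    rw [← num_inj hk]
    exact List.take_prefix _ _
  · intro h
    refine ⟨τ.length - σ.length, ?_, ?_⟩
    · have := length_le_num τ
      omega
    · rw [iter_par_num]
      congr 1
      have hl := h.length_le
      rw [show τ.length - (τ.length - σ.length) = σ.length by omega]
      exact (List.prefix_iff_eq_take.1 h).symm

theorem c_isExt {α : Type} [Primcodable α] {f g : α → ℕ} (hf : Computable f) (hg : Computable g) :
    Computable fun a => isExt (f a) (g a) := by
  have : Computable fun x : ℕ × ℕ => isExt x.1 x.2 := by
    unfold isExt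
    apply c_any
    · repeat' (first
        | with_reducible assumption | with_reducible exact c_id | with_reducible exact c_const _
        | with_reducible apply c_fst | with_reducible apply c_snd | with_reducible apply c_cond
        | with_reducible apply c_all | with_reducible apply c_any | with_reducible apply c_mapr
        | with_reducible apply c_and | with_reducible apply c_or | with_reducible apply c_not
        | with_reducible apply c_beq | with_reducible apply c_lt | with_reducible apply c_le
        | with_reducible apply c_add | with_reducible apply c_sub | with_reducible apply c_mul
        | with_reducible apply c_div | with_reducible apply c_mod | with_reducible apply c_min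
        | with_reducible apply c_np | with_reducible apply c_unpair | with_reducible apply c_len
        | with_reducible apply c_getD | with_reducible apply c_take | with_reducible apply c_app
        | with_reducible apply c_sing | with_reducible apply c_enc | with_reducible apply c_dec
        | with_reducible apply c_pair)
    · apply c_beq
      · apply c_iter
        · repeat' (first
            | with_reducible assumption | with_reducible exact c_id
            | with_reducible exact c_const _ | with_reducible apply c_fst
            | with_reducible apply c_snd | with_reducible apply c_cond
            | with_reducible apply c_all | with_reducible apply c_any
            | with_reducible apply c_mapr | with_reducible apply c_and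
            | with_reducible apply c_or | with_reducible apply c_not | with_reducible apply c_beq
            | with_reducible apply c_lt | with_reducible apply c_le | with_reducible apply c_add
            | with_reducible apply c_sub | with_reducible apply c_mul
            | with_reducible apply c_div | with_reducible apply c_mod
            | with_reducible apply c_min | with_reducible apply c_np
            | with_reducible apply c_unpair | with_reducible apply c_len
            | with_reducible apply c_getD | with_reducible apply c_take
            | with_reducible apply c_app | with_reducible apply c_sing
            | with_reducible apply c_enc | with_reducible apply c_dec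
            | with_reducible apply c_pair)
        · repeat' (first
            | with_reducible assumption | with_reducible exact c_id
            | with_reducible exact c_const _ | with_reducible apply c_fst
            | with_reducible apply c_snd | with_reducible apply c_cond
            | with_reducible apply c_all | with_reducible apply c_any
            | with_reducible apply c_mapr | with_reducible apply c_and
            | with_reducible apply c_or | with_reducible apply c_not | with_reducible apply c_beq
            | with_reducible apply c_lt | with_reducible apply c_le | with_reducible apply c_add
            | with_reducible apply c_sub | with_reducible apply c_mul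
            | with_reducible apply c_div | with_reducible apply c_mod
            | with_reducible apply c_min | with_reducible apply c_np
            | with_reducible apply c_unpair | with_reducible apply c_len
            | with_reducible apply c_getD | with_reducible apply c_take
            | with_reducible apply c_app | with_reducible apply c_sing
            | with_reducible apply c_enc | with_reducible apply c_dec
            | with_reducible apply c_pair)
        · apply c_par
          repeat' (first
            | with_reducible assumption | with_reducible exact c_id
            | with_reducible exact c_const _ | with_reducible apply c_fst
            | with_reducible apply c_snd | with_reducible apply c_cond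
            | with_reducible apply c_all | with_reducible apply c_any
            | with_reducible apply c_mapr | with_reducible apply c_and
            | with_reducible apply c_or | with_reducible apply c_not | with_reducible apply c_beq
            | with_reducible apply c_lt | with_reducible apply c_le | with_reducible apply c_add
            | with_reducible apply c_sub | with_reducible apply c_mul
            | with_reducible apply c_div | with_reducible apply c_mod
            | with_reducible apply c_min | with_reducible apply c_np
            | with_reducible apply c_unpair | with_reducible apply c_len
            | with_reducible apply c_getD | with_reducible apply c_take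
            | with_reducible apply c_app | with_reducible apply c_sing
            | with_reducible apply c_enc | with_reducible apply c_dec
            | with_reducible apply c_pair)
      · repeat' (first
          | with_reducible assumption | with_reducible exact c_id
          | with_reducible exact c_const _ | with_reducible apply c_fst
          | with_reducible apply c_snd | with_reducible apply c_cond | with_reducible apply c_all
          | with_reducible apply c_any | with_reducible apply c_mapr | with_reducible apply c_and
          | with_reducible apply c_or | with_reducible apply c_not | with_reducible apply c_beq
          | with_reducible apply c_lt | with_reducible apply c_le | with_reducible apply c_add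
          | with_reducible apply c_sub | with_reducible apply c_mul | with_reducible apply c_div
          | with_reducible apply c_mod | with_reducible apply c_min | with_reducible apply c_np
          | with_reducible apply c_unpair | with_reducible apply c_len
          | with_reducible apply c_getD | with_reducible apply c_take
          | with_reducible apply c_app | with_reducible apply c_sing | with_reducible apply c_enc
          | with_reducible apply c_dec | with_reducible apply c_pair)
  have h := this.comp (hf.pair hg)
  exact h


end R577.PKL
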